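import Pool.Agent.H343R3.Zak.ZakDim

/-! Task TaskVar of project H286-ZAK (written by helper885). -/

set_option autoImplicit false

namespace Pool.Agent.H885R3.ZakVar

open Pool.Agent.H286R4 Pool.Agent.H286R5 Pool.Agent.H343R3.Zak

theorem taskVar : TaskVar := by
  have hclosed : IsZClosed XZ := by
    refine ⟨{f | (∃ m, f.IsHomogeneous m) ∧ Van f}, fun f hf => hf.1, ?_⟩
    ext p
    constructor
    · rintro hp f ⟨⟨m, hm⟩, hv⟩
      exact hp m f hm hv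
    · intro hp m f hm hv
      exact hp f ⟨⟨m, hm⟩, hv⟩
  have hmem : ∀ (u : Fin 5 → ℂ) (h : (fun a => MvPolynomial.eval u (G5 a)) ≠ 0),
      Projectivization.mk ℂ _ h ∈ XZ := by
    intro u h m f hf hvan
    rw [eval_rep_mk hf, G5_eval]
    exact hvan (u 0) (u 1) (u 2) (u 3) (u 4)
  have h0 : MvPolynomial.eval (fun _ => (1 : ℂ)) (G5 0) ≠ 0 := by
    have h1 : MvPolynomial.eval (fun _ => (1 : ℂ)) (G5 0) = Psi 1 1 1 1 1 0 :=
      congrFun (G5_eval (fun _ => (1 : ℂ))) 0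
    rw [h1]
    simp only [Psi, Matrix.cons_val_zero, one_mul, mul_one]
    norm_num
  have hne : (fun a => MvPolynomial.eval (fun _ => (1 : ℂ)) (G5 a)) ≠ 0 := fun h =>
    h0 (congrFun h 0)
  refine ⟨hclosed, ⟨_, hmem _ hne⟩, fun Z₁ Z₂ hZ₁ hZ₂ hsub => ?_⟩
  by_contra hcon
  push Not at hcon
  obtain ⟨hc1, hc2⟩ := hcon
  have hkey : ∀ Z : Set (PS (Fin 6)), IsZClosed Z → ¬ XZ ⊆ Z → ∃ (k : ℕ)
      (f : MvPolynomial (Fin 6) ℂ), f.IsHomogeneous k ∧
      (∀ q ∈ Z, MvPolynomial.eval q.rep f = 0) ∧ MvPolynomial.aeval G5 f ≠ 0 := by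
    intro Z hZ hn
    obtain ⟨p, hp, hpZ⟩ := Set.not_subset.mp hn
    obtain ⟨k, f, hk, hf, hfp⟩ := hZ.sep hpZ
    refine ⟨k, f, hk, hf, fun h => hfp (hp k f hk ?_)⟩
    intro a b x y z
    have h2 := eval_aeval' G5 f ![a, b, x, y, z]
    rw [h, map_zero, G5_eval] at h2
    exact h2.symm
  obtain ⟨k₁, f₁, hk₁, hf₁, hg₁⟩ := hkey Z₁ hZ₁ hc1
  obtain ⟨k₂, f₂, hk₂, hf₂, hg₂⟩ := hkey Z₂ hZ₂ hc2
  have hg₃ : G5 0 ≠ 0 := by
    intro h
    rw [h, map_zero] at h0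
    exact h0 rfl
  refine mul_ne_zero (mul_ne_zero hg₁ hg₂) hg₃ (MvPolynomial.funext fun u => ?_)
  rw [map_mul, map_mul, map_zero, eval_aeval', eval_aeval']
  by_cases hu : (fun a => MvPolynomial.eval u (G5 a)) = 0
  · have : MvPolynomial.eval u (G5 0) = 0 := congrFun hu 0
    rw [this, mul_zero]
  · rcases hsub (hmem u hu) with h | h
    · have := hf₁ _ h
      rw [eval_rep_mk hk₁] at this
      rw [this, zero_mul, zero_mul]
    · have := hf₂ _ h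
      rw [eval_rep_mk hk₂] at this
      rw [this, mul_zero, zero_mul]

end Pool.Agent.H885R3.ZakVar
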