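import Pool.Agent.H723R3.Beur.LC

set_option autoImplicit false

/-! Task BEUR-B4 of project BEURLING. -/

namespace Pool.Agent.H885R3.BeurB4

universe u

open Cardinal

theorem taskB4 : Beur.TaskB4.{u} := by
  classical
  intro G Λ α _ hle P R hex
  obtain ⟨r, wo, hr⟩ := Cardinal.exists_ord_eq Λ
  have hwf : WellFounded r := wo.wf
  have hseg : ∀ l : Λ, #{l' : Λ // r l' l} < #Λ := by
    intro l
    have h := Cardinal.card_typein_lt l hr
    rwa [Ordinal.card_typein] at h
  have hQ : ∀ (l : Λ) (F : {l' : Λ // r l' l} → α),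
      #(⋃ x : {l' : Λ // r l' l}, (R (F x) : Set G) : Set G) < #G := by
    intro l F
    rcases finite_or_infinite {l' : Λ // r l' l} with hf | hi
    · have h1 : (⋃ x : {l' : Λ // r l' l}, (R (F x) : Set G)).Finite :=
        Set.finite_iUnion fun x => (R (F x)).finite_toSet
      exact (Cardinal.lt_aleph0_iff_set_finite.2 h1).trans_le (Cardinal.aleph0_le_mk G)
    · refine lt_of_le_of_lt ?_ ((hseg l).trans_le hle)
      refine (Cardinal.mk_iUnion_le _).trans ?_
      have h2 : ⨆ x : {l' : Λ // r l' l}, #((R (F x) : Set G)) ≤ ℵ₀ := by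
        refine ciSup_le' fun x => ?_
        exact (Cardinal.lt_aleph0_iff_set_finite.2 (R (F x)).finite_toSet).le
      calc #{l' : Λ // r l' l} * ⨆ x : {l' : Λ // r l' l}, #((R (F x) : Set G))
          ≤ #{l' : Λ // r l' l} * ℵ₀ := by gcongr
        _ = #{l' : Λ // r l' l} := Cardinal.mul_aleph0_eq (Cardinal.aleph0_le_mk _)
  choose g hg using hex
  set f : Λ → α := hwf.fix fun l F =>
    g l (⋃ x : {l' : Λ // r l' l}, (R (F x.1 x.2) : Set G)) (hQ l fun x => F x.1 x.2) with hf
  have hfe : ∀ l, f l = g l (⋃ x : {l' : Λ // r l' l}, (R (f x.1) : Set G))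
      (hQ l fun x => f x.1) := by
    intro l
    rw [hf, WellFounded.fix_eq]
  have hfp : ∀ l, P l (f l) ∧ Disjoint (R (f l) : Set G)
      (⋃ x : {l' : Λ // r l' l}, (R (f x.1) : Set G)) := by
    intro l
    have h := hg l (⋃ x : {l' : Λ // r l' l}, (R (f x.1) : Set G)) (hQ l fun x => f x.1)
    rwa [← hfe l] at h
  have hlt : ∀ l l', r l' l → Disjoint (R (f l)) (R (f l')) := by
    intro l l' hl
    have h := (hfp l).2
    rw [Set.disjoint_iUnion_right] at h
    exact Finset.disjoint_coe.1 (h ⟨l', hl⟩)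
  refine ⟨f, fun l => (hfp l).1, fun l l' hne => ?_⟩
  rcases trichotomous_of r l l' with h | h | h
  · exact (hlt l' l h).symm
  · exact absurd h hne
  · exact hlt l l' h

end Pool.Agent.H885R3.BeurB4
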