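import Mathlib
import Pool.Agent.H242R3.ES.Stmts
import Pool.Agent.H242R3.ES.StmtsG
import Pool.Agent.H242R3.ES.StmtsN

/-!
# PROJECT H242-ES, task N15: vertex figures
-/

set_option autoImplicit false

open Finset
open scoped Classical

namespace Pool.Agent.H885R3.ESN15

open Pool.Agent.H242R3.ES

lemma B_symm {D : ℕ} (x y : LV D) : B x y = B y x := by
  unfold B
  congr 1
  · exact sum_congr rfl fun i _ => mul_comm _ _
  · exact mul_comm _ _

/-- a functional vanishing on the kernel factors -/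
lemma factor {E F : Type} [AddCommGroup E] [Module ℝ E] [AddCommGroup F] [Module ℝ F]
    (p : E →ₗ[ℝ] F) (hp : Function.Surjective p) (w : E)
    (hk : LinearMap.ker p = Submodule.span ℝ {w}) (l : E →ₗ[ℝ] ℝ) (hl : l w = 0) :
    ∃ m : F →ₗ[ℝ] ℝ, ∀ x, m (p x) = l x := by
  obtain ⟨s, hs⟩ := LinearMap.exists_rightInverse_of_surjective p (LinearMap.range_eq_top.2 hp)
  refine ⟨l.comp s, fun x => ?_⟩
  have h1 : s (p x) - x ∈ LinearMap.ker p := by
    rw [LinearMap.mem_ker, map_sub]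
    have : p (s (p x)) = p x := by
      have := LinearMap.congr_fun hs (p x)
      simpa using this
    rw [this, sub_self]
  rw [hk, Submodule.mem_span_singleton] at h1
  obtain ⟨a, ha⟩ := h1
  have h2 : l (s (p x) - x) = 0 := by
    rw [← ha, map_smul, hl, smul_zero]
  rw [map_sub] at h2
  simp only [LinearMap.comp_apply]
  linarith

lemma face_univ {ι E : Type} [AddCommGroup E] [Module ℝ E] (V : ι → E) : Face V Set.univ :=
  ⟨0, fun _ => by simp, fun _ => by simp⟩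

lemma half (hP1 : P1G) (hGen : GenV) (hProj : ProjV) (D : ℕ) (ι : Type) [Fintype ι]
    (V : ι → LV (D + 1)) (hV : GQ (D + 1) V) (v : ι) (Q : ι → Prop)
    (hQ : ∀ k, Q k ↔ k ≠ v ∧ Face V {v, k}) :
    ∃ X : {k // Q k} → LV D, NC D X ∧ (∀ i j, B (X i) (X j) = B (V i) (V j) - 1) ∧
      ∀ S : Set {k // Q k}, Face X S ↔ ∃ T, Face V T ∧ v ∈ T ∧ ∀ k : {k // Q k}, k ∈ S ↔ k.1 ∈ T := by
  obtain ⟨p, hp, hker, hB⟩ := hProj D (V v) (hV.norm v)
  have hpv : p (V v) = 0 := by
    rw [← LinearMap.mem_ker, hker]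
    exact Submodule.mem_span_singleton_self _
  have hgen := fun i => hGen ι (LV (D + 1)) V hV.vert v Set.univ (face_univ V) (Set.mem_univ v) i
    (Set.mem_univ i)
  have hed : ∀ k : {k // Q k}, B (V k) (V v) = -1 := by
    intro k
    obtain ⟨h1, h2⟩ := (hQ k.1).1 k.2
    rw [B_symm]
    exact hV.edge v k.1 (Ne.symm h1) h2
  have hBX : ∀ i j : {k // Q k}, B (p (V i)) (p (V j)) = B (V i) (V j) - 1 := by
    intro i j
    rw [hB, hed, hed]
    ring
  -- the faces
  have hface : ∀ S : Set {k // Q k}, Face (fun k : {k // Q k} => p (V k)) S ↔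
      ∃ T, Face V T ∧ v ∈ T ∧ ∀ k : {k // Q k}, k ∈ S ↔ k.1 ∈ T := by
    intro S
    constructor
    · rintro ⟨m, hm1, hm2⟩
      refine ⟨{i | m (p (V i)) = 0}, ⟨m.comp p, ?_, ?_⟩, ?_, ?_⟩
      · intro i
        obtain ⟨y, a, ha1, ha2, ha3⟩ := hgen i
        rw [ha3, map_add, map_smul, map_sum]
        simp only [LinearMap.comp_apply, hpv, map_zero, map_smul, smul_eq_mul, mul_zero, zero_add]
        apply sum_nonneg
        intro k _
        by_cases hak : a k = 0
        · rw [hak, zero_mul]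
        · obtain ⟨_, h2, h3⟩ := ha2 k hak
          have hQk : Q k := (hQ k).2 ⟨h2, h3⟩
          exact mul_nonneg (ha1 k) (hm1 ⟨k, hQk⟩)
      · intro i
        rfl
      · show m (p (V v)) = 0
        rw [hpv, map_zero]
      · intro k
        rw [hm2 k]
        rfl
    · rintro ⟨T, ⟨l, hl1, hl2⟩, hvT, hk⟩
      obtain ⟨m, hm⟩ := factor p hp (V v) hker l ((hl2 v).1 hvT)
      refine ⟨m, fun k => ?_, fun k => ?_⟩
      · show 0 ≤ m (p (V k))
        rw [hm]
        exact hl1 _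
      · show k ∈ S ↔ m (p (V k)) = 0
        rw [hm, hk k, hl2]
  refine ⟨fun k => p (V k), ⟨?_, ?_, ?_, ?_⟩, hBX, hface⟩
  · intro i
    show B (p (V i)) (p (V i)) = 0
    rw [hBX, hV.norm]
    ring
  · intro i j hij
    show B (p (V i)) (p (V j)) < 0
    obtain ⟨h1, h2⟩ := (hQ i.1).1 i.2
    obtain ⟨h3, h4⟩ := (hQ j.1).1 j.2
    have h5 := hP1 (D + 1) ι V hV v i.1 j.1 h1 h3 (fun h => hij (Subtype.ext h)) h2 h4
    rw [hBX]
    linarith
  · intro k
    obtain ⟨h1, h2⟩ := (hQ k.1).1 k.2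
    rw [hface]
    refine ⟨{v, k.1}, h2, by simp, ?_⟩
    intro i
    obtain ⟨h3, _⟩ := (hQ i.1).1 i.2
    simp only [Set.mem_singleton_iff, Set.mem_insert_iff]
    constructor
    · intro h
      right
      rw [h]
    · rintro (h | h)
      · exact absurd h h3
      · exact Subtype.ext h
  · rw [eq_top_iff]
    have h1 : ∀ i, p (V i) ∈ Submodule.span ℝ (Set.range (fun k : {k // Q k} => p (V k))) := by
      intro i
      obtain ⟨y, a, ha1, ha2, ha3⟩ := hgen i
      rw [ha3, map_add, map_smul, hpv, smul_zero, zero_add, map_sum]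
      apply Submodule.sum_mem
      intro k _
      rw [map_smul]
      by_cases hak : a k = 0
      · rw [hak, zero_smul]
        exact Submodule.zero_mem _
      · obtain ⟨_, h2, h3⟩ := ha2 k hak
        have hQk : Q k := (hQ k).2 ⟨h2, h3⟩
        exact Submodule.smul_mem _ _ (Submodule.subset_span ⟨⟨k, hQk⟩, rfl⟩)
    have h2 : Submodule.map p (Submodule.span ℝ (Set.range V)) = ⊤ := by
      rw [hV.span, Submodule.map_top]
      exact LinearMap.range_eq_top.2 hp
    rw [← h2, Submodule.map_span, Submodule.span_le]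
    rintro _ ⟨_, ⟨i, rfl⟩, rfl⟩
    exact h1 i

/-- **Task N15** -/
theorem taskN15 : TaskN15 := by
  intro hP1 hGen hProj D _ hStep hFac ι _ V V' hV hV' hF v i j hiv hjv hi hj
  obtain ⟨Q, hQ⟩ : ∃ Q : ι → Prop, ∀ k, Q k ↔ k ≠ v ∧ Face V {v, k} := ⟨_, fun _ => Iff.rfl⟩
  obtain ⟨X, hX, hBX, hfX⟩ := half hP1 hGen hProj D ι V hV v Q hQ
  obtain ⟨X', hX', hBX', hfX'⟩ := half hP1 hGen hProj D ι V' hV' v Q (fun k => by rw [← hF, hQ])
  have hFX : ∀ S, Face X S ↔ Face X' S := by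
    intro S
    rw [hfX, hfX']
    constructor
    · rintro ⟨T, h1, h2⟩
      exact ⟨T, (hF T).1 h1, h2⟩
    · rintro ⟨T, h1, h2⟩
      exact ⟨T, (hF T).2 h1, h2⟩
  have hG : ∀ S, Face X S → S ≠ Set.univ → ∀ i ∈ S, ∀ j ∈ S, B (X i) (X j) = B (X' i) (X' j) := by
    intro S hS hSu i hi j hj
    obtain ⟨T, h1, h2, h3⟩ := (hfX S).1 hS
    have hT : T ≠ Set.univ := by
      intro hT
      apply hSu
      ext k
      rw [h3 k, hT]
      simp
    rw [hBX, hBX', hFac ι V V' hV hV' hF T h1 hT i ((h3 i).1 hi) j ((h3 j).1 hj)]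
  have h := hStep {k // Q k} X X' hX hX' hFX hG ⟨i, (hQ i).2 ⟨hiv, hi⟩⟩
    ⟨j, (hQ j).2 ⟨hjv, hj⟩⟩
  rw [hBX, hBX'] at h
  simpa using h

end Pool.Agent.H885R3.ESN15
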