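import Pool.Agent.H242R3.ES.Stmts

/-! Task ES-STEP of project H242-ES (written by helper885). -/

set_option autoImplicit false

open MeasureTheory Finset
open scoped Classical

namespace Pool.Agent.H885R3.ESStep

open Pool.Agent.H242R3.ES

theorem sc_of {D : ℕ} {ι : Type} [Fintype ι] {V : ι → LV D} (h : SP D V) : SC V :=
  ⟨h.vert, h.span, h.simp⟩

theorem finrank_LV (D : ℕ) : Module.finrank ℝ (LV D) = D + 1 := by
  rw [Module.finrank_fintype_fun_eq_card, Fintype.card_option, Fintype.card_fin]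

theorem card_ge {D : ℕ} {ι : Type} [Fintype ι] {V : ι → LV D} (h : SP D V) :
    D + 1 ≤ Fintype.card ι := by
  have h1 := finrank_range_le_card (R := ℝ) V
  unfold Set.finrank at h1
  rw [h.span, finrank_top, finrank_LV] at h1
  exact h1

theorem three_ne_univ {D : ℕ} {ι : Type} [Fintype ι] {V : ι → LV D} (hD : 3 ≤ D) (h : SP D V)
    (a b c : ι) : ({a, b, c} : Set ι) ≠ Set.univ := by
  intro he
  have h1 := card_ge h
  have h2 : (Set.univ : Set ι).ncard ≤ 3 := by
    rw [← he]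
    have h3 := Set.ncard_insert_le a {b, c}
    have h4 := Set.ncard_insert_le b {c}
    rw [Set.ncard_singleton] at h4
    omega
  rw [Set.ncard_univ, Nat.card_eq_fintype_card] at h2
  omega

theorem two_ne_univ {D : ℕ} {ι : Type} [Fintype ι] {V : ι → LV D} (hD : 3 ≤ D) (h : SP D V)
    (a b : ι) : ({a, b} : Set ι) ≠ Set.univ := by
  have h1 := three_ne_univ hD h a b b
  rwa [Set.pair_eq_singleton] at h1

theorem adm_of (hC1 : TaskC1) (hP2 : TaskP2) {D : ℕ} (hD : 4 ≤ D) {ι : Type} [Fintype ι]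
    {V : ι → LV D} (h : SP D V) {v j o : ι} (hj : j ∈ Nb V v) (ho : o ∈ Nb V v) (hoj : o ≠ j)
    (hnf : ¬ Face V {v, j, o})
    (hpd : ∀ s ∈ LK V v j, (GM s (fun x => cc V o x / cc V o j)).PosDef) (hc : 0 < cc V o j) :
    Adm (D - 2) (LK V v j) (fun x => cc V o x / cc V o j) := by
  refine ⟨hpd, ?_⟩
  intro r l l' hl hl' hll hins hins'
  have h1 := hP2 hC1 D hD ι V h v j o hj ho hoj hnf r l l' hl hl' hll hins hins'
  have h2 : (1 : ℝ) + ∑ i ∈ r, cc V o i / cc V o j = (cc V o j + ∑ i ∈ r, cc V o i) / cc V o j := by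
    rw [← Finset.sum_div]
    field_simp
  show cc V o l / cc V o j + cc V o l' / cc V o j < _
  rw [h2, ← add_div, ← mul_div_assoc]
  exact div_lt_div_of_pos_right h1 hc

theorem key (hCmp : Compare) (hC1 : TaskC1) (hC2 : TaskC2) (hC3 : TaskC3) (hP1 : TaskP1)
    (hP2 : TaskP2)
    (hPM : ∀ (D : ℕ), 4 ≤ D → ∀ (ι : Type) [Fintype ι] (V : ι → LV D), SP D V →
      ∀ v j, j ∈ Nb V v → PM (D - 2) (LK V v j))
    (hSum : ∀ (D : ℕ), 4 ≤ D → ∀ (ι : Type) [Fintype ι] (V : ι → LV D), SP D V →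
      ∀ v j o, j ∈ Nb V v → o ∈ Nb V v → o ≠ j → ¬ Face V {v, j, o} →
      ∑ s ∈ LK V v j, om s (fun x => cc V o x / cc V o j) = 1 ∧
      ∀ s ∈ LK V v j, (GM s (fun x => cc V o x / cc V o j)).PosDef)
    {D : ℕ} (hD : 4 ≤ D) {ι : Type} [Fintype ι] {V V' : ι → LV D} (h : SP D V) (h' : SP D V')
    (hF : ∀ S, Face V S ↔ Face V' S) {v o : ι} (ho : o ∈ Nb V v) :
    ∀ k ∈ Nb V v, k ≠ o → cc V o k ≤ cc V' o k := by
  have hsc := sc_of h
  have hNb : ∀ k, k ∈ Nb V v ↔ k ∈ Nb V' v := fun k => by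
    simp only [Nb, Set.mem_ofPred_eq, hF]
  have ho' := (hNb o).1 ho
  have hpos : ∀ k ∈ Nb V v, k ≠ o → 0 < cc V o k := fun k hk hko => by
    have := hP1 D (by omega) ι V h v k o hk ho hko
    unfold cc
    linarith
  have hpos' : ∀ k ∈ Nb V v, k ≠ o → 0 < cc V' o k := fun k hk hko => by
    have := hP1 D (by omega) ι V' h' v k o ((hNb k).1 hk) ho' hko
    unfold cc
    linarith
  have hLK : ∀ j, LK V' v j = LK V v j := fun j => by
    unfold LK
    simp only [hF]
  by_contra hcon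
  push Not at hcon
  obtain ⟨k0, hk0, hk0o, hlt⟩ := hcon
  set N : Finset ι := Finset.univ.filter fun k => k ∈ Nb V v ∧ k ≠ o with hN
  have hNmem : ∀ k, k ∈ N ↔ k ∈ Nb V v ∧ k ≠ o := fun k => by
    rw [hN, Finset.mem_filter]
    exact ⟨fun h => h.2, fun h => ⟨Finset.mem_univ _, h⟩⟩
  have hNne : N.Nonempty := ⟨k0, (hNmem k0).2 ⟨hk0, hk0o⟩⟩
  obtain ⟨j0, hj0, hmin⟩ := N.exists_min_image (fun k => cc V' o k / cc V o k) hNne
  set μ := cc V' o j0 / cc V o j0 with hμ
  have hμ1 : μ < 1 :=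
    lt_of_le_of_lt (hmin k0 ((hNmem k0).2 ⟨hk0, hk0o⟩)) ((div_lt_one (hpos k0 hk0 hk0o)).2 hlt)
  set M : Finset ι := N.filter fun j => cc V' o j = μ * cc V o j with hM
  have hMmem : ∀ j, j ∈ M ↔ (j ∈ Nb V v ∧ j ≠ o) ∧ cc V' o j = μ * cc V o j := fun j => by
    rw [hM, Finset.mem_filter, hNmem]
  have hMne : M.Nonempty := by
    have hj := (hNmem j0).1 hj0
    refine ⟨j0, (hMmem j0).2 ⟨hj, ?_⟩⟩
    rw [hμ, div_mul_cancel₀ _ (hpos j0 hj.1 hj.2).ne']
  have hle : ∀ k ∈ Nb V v, k ≠ o → μ * cc V o k ≤ cc V' o k := by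
    intro k hk hko
    have h1 := hmin k ((hNmem k).2 ⟨hk, hko⟩)
    exact (le_div_iff₀ (hpos k hk hko)).1 h1
  -- a minimiser is not a neighbour of `o`
  have hA : ∀ j ∈ M, ¬ Face V {v, j, o} := by
    intro j hj hface
    obtain ⟨⟨hjN, hjo⟩, hjμ⟩ := (hMmem j).1 hj
    have hjo_face : Face V {j, o} := by
      refine hC1 ι (LV D) V hsc _ _ hface (three_ne_univ (by omega) h _ _ _) ?_
      intro x hx
      exact Or.inr hx
    have e1 := h.edge j o hjo hjo_face
    have e2 := h'.edge j o hjo ((hF _).1 hjo_face)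
    have c1 : cc V o j = 2 := by
      unfold cc
      rw [e1]
      norm_num
    have c2 : cc V' o j = 2 := by
      unfold cc
      rw [e2]
      norm_num
    rw [c1, c2] at hjμ
    linarith
  have hlink : ∀ j ∈ M, ∀ k, k ≠ v → Face V {v, j, k} → k ∈ Nb V v ∧ k ≠ o := by
    intro j hj k hkv hface
    refine ⟨⟨hkv, ?_⟩, ?_⟩
    · refine hC1 ι (LV D) V hsc _ _ hface (three_ne_univ (by omega) h _ _ _) ?_
      intro x hx
      rcases hx with hx | hx
      · exact Or.inl hx
      · exact Or.inr (Or.inr hx)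
    · rintro rfl
      exact hA j hj hface
  -- propagation
  have hB : ∀ j ∈ M, ∀ k, k ≠ v → k ≠ j → Face V {v, j, k} → k ∈ M := by
    intro j hj k hkv hkj hface
    obtain ⟨⟨hjN, hjo⟩, hjμ⟩ := (hMmem j).1 hj
    have hcj := hpos j hjN hjo
    have hcj' := hpos' j hjN hjo
    have hjN' := (hNb j).1 hjN
    have hnf := hA j hj
    have hnf' : ¬ Face V' {v, j, o} := fun hf => hnf ((hF _).2 hf)
    have hs1 := hSum D hD ι V h v j o hjN ho hjo.symm hnf
    have hs2 := hSum D hD ι V' h' v j o hjN' ho' hjo.symm hnf'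
    have ha1 := adm_of hC1 hP2 hD h hjN ho hjo.symm hnf hs1.2 hcj
    have ha2 := adm_of hC1 hP2 hD h' hjN' ho' hjo.symm hnf' hs2.2 hcj'
    rw [hLK j] at hs2 ha2
    have hjv : j ≠ v := hjN.1
    have hmemLK : ∀ s ∈ LK V v j, ∀ x ∈ s, x ∈ Nb V v ∧ x ≠ o := by
      intro s hs x hx
      rw [LK, Finset.mem_filter] at hs
      obtain ⟨-, hvs, hjs, -, hfs, hne⟩ := hs
      have hxv : x ≠ v := fun he => hvs (he ▸ hx)
      refine hlink j hj x hxv (hC1 ι (LV D) V hsc _ _ hfs hne ?_)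
      intro y hy
      rcases hy with hy | hy | hy
      · exact Or.inl hy
      · exact Or.inr (Or.inl hy)
      · rw [Set.mem_singleton_iff] at hy
        subst hy
        exact Or.inr (Or.inr (Finset.mem_coe.2 hx))
    have hcmp := hCmp ι (D - 2) (by omega) (LK V v j) (hPM D hD ι V h v j hjN)
      (fun x => cc V o x / cc V o j) (fun x => cc V' o x / cc V' o j) ha1 ha2 ?_
      (hs1.1.trans hs2.1.symm)
    · -- the facet that contains `k`
      obtain ⟨S, hRS, hfS, hSne, hScard⟩ := hC3 ι (LV D) V hsc _ hface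
        (three_ne_univ (by omega) h _ _ _)
      rw [finrank_LV] at hScard
      have hvS : v ∈ S := by
        have := hRS (Or.inl rfl : v ∈ ({v, j, k} : Set ι))
        exact_mod_cast this
      have hjS : j ∈ S := by
        have := hRS (Or.inr (Or.inl rfl) : j ∈ ({v, j, k} : Set ι))
        exact_mod_cast this
      have hkS : k ∈ S := by
        have := hRS (Or.inr (Or.inr rfl) : k ∈ ({v, j, k} : Set ι))
        exact_mod_cast this
      have hjSv : j ∈ S.erase v := Finset.mem_erase.2 ⟨hjv, hjS⟩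
      have hins : (insert v (insert j ((S.erase v).erase j : Finset ι) : Set ι)) =
          (S : Set ι) := by
        rw [← Finset.coe_insert, Finset.insert_erase hjSv, ← Finset.coe_insert,
          Finset.insert_erase hvS]
      have hsLK : (S.erase v).erase j ∈ LK V v j := by
        rw [LK, Finset.mem_filter]
        refine ⟨Finset.mem_univ _, ?_, ?_, ?_, ?_, ?_⟩
        · intro hc
          exact (Finset.notMem_erase v S) (Finset.mem_of_mem_erase hc)
        · exact Finset.notMem_erase j _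
        · rw [Finset.card_erase_of_mem hjSv, Finset.card_erase_of_mem hvS]
          omega
        · rw [hins]; exact hfS
        · rw [hins]; exact hSne
      have hks : k ∈ (S.erase v).erase j :=
        Finset.mem_erase.2 ⟨hkj, Finset.mem_erase.2 ⟨hkv, hkS⟩⟩
      have heq := hcmp _ hsLK k hks
      have hkN := hlink j hj k hkv hface
      refine (hMmem k).2 ⟨hkN, ?_⟩
      rw [div_eq_div_iff hcj.ne' hcj'.ne', hjμ] at heq
      have h1 : cc V o j * (cc V' o k - μ * cc V o k) = 0 := by linarith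
      rcases mul_eq_zero.1 h1 with h2 | h2
      · exact absurd h2 hcj.ne'
      · linarith
    · intro s hs x hx
      obtain ⟨hxN, hxo⟩ := hmemLK s hs x hx
      rw [div_le_div_iff₀ hcj hcj', hjμ]
      have h1 := hle x hxN hxo
      nlinarith
  -- the descent
  obtain ⟨l0, hl0, hl0'⟩ := ho.2
  obtain ⟨hh, hh0, hh0'⟩ := h.vert v
  have hhpos : ∀ x, x ≠ v → 0 < hh (V x) := by
    intro x hx
    refine lt_of_le_of_ne (hh0 x) fun he => hx ?_
    exact (hh0' x).2 he.symm
  obtain ⟨k, hkM, hkmin⟩ := M.exists_min_image (fun k => l0 (V k) / hh (V k)) hMne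
  obtain ⟨⟨hkN, hko⟩, -⟩ := (hMmem k).1 hkM
  have hkv : k ≠ v := hkN.1
  have hspan : Module.finrank ℝ (Submodule.span ℝ (V '' ({v, k} : Set ι))) + 2 ≤
      Module.finrank ℝ (LV D) := by
    rw [finrank_LV]
    have h1 : Module.finrank ℝ (Submodule.span ℝ (V '' ({v, k} : Set ι))) ≤ 2 := by
      have h2 := finrank_span_le_card (R := ℝ) (V '' ({v, k} : Set ι))
      refine h2.trans ?_
      rw [← Set.ncard_eq_toFinset_card']
      refine (Set.ncard_image_le (Set.toFinite _)).trans ?_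
      have h4 := Set.ncard_insert_le v {k}
      rw [Set.ncard_singleton] at h4
      omega
    omega
  obtain ⟨y, a, hy, ha0, hane, hVo⟩ := hC2 ι (LV D) V hsc {v, k} hkN.2
    (two_ne_univ (by omega) h _ _) hspan o
  set ρ := l0 (V k) / hh (V k) with hρ
  have hov : o ≠ v := ho.1
  have hlk : 0 < l0 (V k) := by
    refine lt_of_le_of_ne (hl0 k) fun he => ?_
    have := (hl0' k).2 he.symm
    rcases this with hx | hx
    · exact hkv hx
    · exact hko hx
  have hρpos : 0 < ρ := div_pos hlk (hhpos k hkv)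
  set f : LV D →ₗ[ℝ] ℝ := l0 - ρ • hh with hf
  have hfv : f (V v) = 0 := by
    have h1 : l0 (V v) = 0 := (hl0' v).1 (Or.inl rfl)
    have h2 : hh (V v) = 0 := (hh0' v).1 rfl
    rw [hf, LinearMap.sub_apply, LinearMap.smul_apply, h1, h2, smul_zero, sub_zero]
  have hfk : f (V k) = 0 := by
    rw [hf, LinearMap.sub_apply, LinearMap.smul_apply, smul_eq_mul, hρ,
      div_mul_cancel₀ _ (hhpos k hkv).ne', sub_self]
  have hfo : f (V o) < 0 := by
    have h1 : l0 (V o) = 0 := (hl0' o).1 (Or.inr rfl)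
    rw [hf, LinearMap.sub_apply, LinearMap.smul_apply, smul_eq_mul, h1]
    have := mul_pos hρpos (hhpos o hov)
    linarith
  have hfy : f y = 0 := by
    have h1 : Submodule.span ℝ (V '' ({v, k} : Set ι)) ≤ LinearMap.ker f := by
      rw [Submodule.span_le]
      rintro _ ⟨x, hx, rfl⟩
      rcases hx with hx | hx
      · rw [hx]; exact hfv
      · rw [Set.mem_singleton_iff] at hx
        rw [hx]; exact hfk
    exact h1 hy
  have hsum : f (V o) = ∑ x, a x * f (V x) := by
    conv_lhs => rw [hVo]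
    rw [map_add, hfy, zero_add, map_sum]
    refine Finset.sum_congr rfl fun x _ => ?_
    rw [map_smul, smul_eq_mul]
  rw [hsum] at hfo
  obtain ⟨x, hxneg⟩ : ∃ x, a x * f (V x) < 0 := by
    by_contra hcon
    push Not at hcon
    exact absurd hfo (not_lt.2 (Finset.sum_nonneg fun x _ => hcon x))
  have hax : a x ≠ 0 := by
    intro h0
    rw [h0, zero_mul] at hxneg
    exact lt_irrefl _ hxneg
  have hfx : f (V x) < 0 := by
    by_contra hcon
    push Not at hcon
    exact absurd hxneg (not_lt.2 (mul_nonneg (ha0 x) hcon))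
  obtain ⟨hxR, hxface⟩ := hane x hax
  have hxv : x ≠ v := fun he => hxR (Or.inl he)
  have hxk : x ≠ k := fun he => hxR (Or.inr he)
  have hxface' : Face V {v, k, x} := by
    have : (insert x {v, k} : Set ι) = {v, k, x} := by
      ext z
      simp only [Set.mem_insert_iff, Set.mem_singleton_iff]
      tauto
    rwa [this] at hxface
  have hxM : x ∈ M := hB k hkM x hxv hxk hxface'
  have hmin' := hkmin x hxM
  rw [le_div_iff₀ (hhpos x hxv)] at hmin'
  rw [hf, LinearMap.sub_apply, LinearMap.smul_apply, smul_eq_mul] at hfx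
  linarith

theorem t : TaskStep := by
  intro hCmp hC1 hC2 hC3 _ hP1 hP2 hPM hSum D hD ι _ V V' h h' hF v k l hk hl
  by_cases hkl : k = l
  · subst hkl
    rw [h.norm, h'.norm]
  · have hNb : ∀ k, k ∈ Nb V v ↔ k ∈ Nb V' v := fun k => by
      simp only [Nb, Set.mem_ofPred_eq, hF]
    have h1 := key hCmp hC1 hC2 hC3 hP1 hP2 hPM hSum hD h h' hF hl k hk hkl
    have h2 := key hCmp hC1 hC2 hC3 hP1 hP2 hPM hSum hD h' h (fun S => (hF S).symm)
      ((hNb l).1 hl) k ((hNb k).1 hk) hkl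
    unfold cc at h1 h2
    linarith

end Pool.Agent.H885R3.ESStep
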