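import Mathlib

/-!
Left closeness relations in a first countable topological group, and two combinatorial
facts about separated sequences.
-/

set_option autoImplicit false

open Set Filter Topology

namespace Pool.Agent.H885R3

variable {G : Type*} [Group G]

/-- `Cl U n a b`: the points `a` and `b` are close of order `n` in the left uniformity. -/
def Cl (U : ℕ → Set G) (n : ℕ) (a b : G) : Prop := a⁻¹ * b ∈ U n

/-- A base of neighbourhoods of the identity with the usual algebraic properties. -/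
structure Base [TopologicalSpace G] (U : ℕ → Set G) : Prop where
  nhds : ∀ n, U n ∈ 𝓝 (1 : G)
  inv : ∀ n a, a ∈ U n → a⁻¹ ∈ U n
  mul : ∀ n a b, a ∈ U (n + 1) → b ∈ U (n + 1) → a * b ∈ U n
  small : ∀ V ∈ 𝓝 (1 : G), ∃ n, U n ⊆ V

variable [TopologicalSpace G]

theorem exists_base [IsTopologicalGroup G] [FirstCountableTopology G] :
    ∃ U : ℕ → Set G, Base U := by
  obtain ⟨u, hu, hmul⟩ := IsTopologicalGroup.exists_antitone_basis_nhds_one G
  refine ⟨fun n => u n ∩ (u n)⁻¹, ?_, ?_, ?_, ?_⟩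
  · intro n
    have h1 : u n ∈ 𝓝 (1 : G) := hu.mem n
    exact inter_mem h1 (inv_mem_nhds_one G h1)
  · rintro n a ⟨h1, h2⟩
    exact ⟨h2, by simpa using h1⟩
  · rintro n a b ⟨ha1, ha2⟩ ⟨hb1, hb2⟩
    refine ⟨hmul n (Set.mul_mem_mul ha1 hb1), ?_⟩
    rw [Set.mem_inv, mul_inv_rev]
    exact hmul n (Set.mul_mem_mul hb2 ha2)
  · intro V hV
    obtain ⟨n, -, hn⟩ := hu.toHasBasis.mem_iff.1 hV
    exact ⟨n, fun x hx => hn hx.1⟩

namespace Base

variable {U : ℕ → Set G} (hU : Base U)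
include hU

theorem one_mem (n : ℕ) : (1 : G) ∈ U n := mem_of_mem_nhds (hU.nhds n)

theorem mono_succ (n : ℕ) : U (n + 1) ⊆ U n := fun a ha => by
  simpa using hU.mul n a 1 ha (hU.one_mem _)

theorem mono {m n : ℕ} (h : m ≤ n) : U n ⊆ U m := by
  induction h with
  | refl => exact subset_rfl
  | step _ ih => exact (hU.mono_succ _).trans ih

theorem cl_refl (n : ℕ) (a : G) : Cl U n a a := by
  simpa [Cl] using hU.one_mem n

theorem cl_symm {n : ℕ} {a b : G} (h : Cl U n a b) : Cl U n b a := by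
  have := hU.inv n _ h
  simpa [Cl, mul_inv_rev] using this

theorem cl_trans {n : ℕ} {a b c : G} (h1 : Cl U (n + 1) a b) (h2 : Cl U (n + 1) b c) :
    Cl U n a c := by
  have := hU.mul n _ _ h1 h2
  simpa [Cl, mul_assoc] using this

theorem cl_mono {m n : ℕ} (h : m ≤ n) {a b : G} (h1 : Cl U n a b) : Cl U m a b :=
  hU.mono h h1

omit hU in
omit [TopologicalSpace G] in
theorem cl_left {n : ℕ} (g : G) {a b : G} : Cl U n (g * a) (g * b) ↔ Cl U n a b := by
  simp [Cl, mul_inv_rev, mul_assoc]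

theorem nhds_cl [IsTopologicalGroup G] (n : ℕ) (p : G) : {b | Cl U n p b} ∈ 𝓝 p := by
  have h : Tendsto (fun b : G => p⁻¹ * b) (𝓝 p) (𝓝 (p⁻¹ * p)) :=
    (continuous_const.mul continuous_id).tendsto p
  rw [inv_mul_cancel] at h
  exact h (hU.nhds n)

end Base

/-- totally bounded sets, for the left uniformity -/
def TB (U : ℕ → Set G) (A : Set G) : Prop :=
  ∀ m, ∃ F : Finset G, ∀ a ∈ A, ∃ q ∈ F, Cl U m q a

/-- Hurewicz-bounded sets -/
def HB (U : ℕ → Set G) (A : Set G) : Prop :=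
  ∀ v : ℕ → ℕ, ∃ F : ℕ → Finset G, ∀ a ∈ A, ∀ᶠ n in atTop, ∃ q ∈ F n, Cl U (v n) q a

omit [TopologicalSpace G] in
theorem TB.hb {U : ℕ → Set G} {A : Set G} (h : TB U A) : HB U A := by
  intro v
  choose F hF using h
  exact ⟨fun n => F (v n), fun a ha => Eventually.of_forall fun n => hF (v n) a ha⟩

omit [TopologicalSpace G] in
theorem HB.mono {U : ℕ → Set G} {A B : Set G} (h : HB U B) (hAB : A ⊆ B) : HB U A := by
  intro v
  obtain ⟨F, hF⟩ := h v
  exact ⟨F, fun a ha => hF a (hAB ha)⟩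

omit [TopologicalSpace G] in
theorem HB.iUnion {U : ℕ → Set G} {A : ℕ → Set G} (h : ∀ i, HB U (A i)) :
    HB U (⋃ i, A i) := by
  classical
  intro v
  choose F hF using fun i => h i v
  refine ⟨fun n => (Finset.range (n + 1)).biUnion (fun i => F i n), ?_⟩
  intro a ha
  obtain ⟨i, hi⟩ := mem_iUnion.1 ha
  filter_upwards [hF i a hi, eventually_ge_atTop i] with n hn hin
  obtain ⟨q, hq, hq'⟩ := hn
  exact ⟨q, Finset.mem_biUnion.2 ⟨i, Finset.mem_range.2 (by omega), hq⟩, hq'⟩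

omit [TopologicalSpace G] in
theorem HB.union {U : ℕ → Set G} {A B : Set G} (hA : HB U A) (hB : HB U B) :
    HB U (A ∪ B) := by
  have : HB U (⋃ i : ℕ, if i = 0 then A else B) := HB.iUnion fun i => by
    by_cases h : i = 0 <;> simp [h, hA, hB]
  refine this.mono ?_
  rintro x (hx | hx)
  · exact mem_iUnion.2 ⟨0, by simpa using hx⟩
  · exact mem_iUnion.2 ⟨1, by simpa using hx⟩

omit [TopologicalSpace G] in
theorem HB.sUnion {U : ℕ → Set G} {T : Set (Set G)} (hT : T.Countable)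
    (h : ∀ A ∈ T, HB U A) : HB U (⋃₀ T) := by
  rcases T.eq_empty_or_nonempty with rfl | hne
  · intro v
    exact ⟨fun _ => ∅, by simp⟩
  obtain ⟨A, rfl⟩ := hT.exists_eq_range hne
  rw [sUnion_range]
  exact HB.iUnion fun i => h _ (mem_range_self i)

/-- A set which is not totally bounded contains an infinite separated sequence. -/
theorem exists_separated {U : ℕ → Set G} (hU : Base U) {A : Set G} (hA : ¬ TB U A) :
    ∃ (m : ℕ) (φ : ℕ → G), (∀ i, φ i ∈ A) ∧ ∀ i j, i ≠ j → ¬ Cl U m (φ i) (φ j) := by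
  unfold TB at hA
  push Not at hA
  obtain ⟨m, hm⟩ := hA
  obtain ⟨φ, h1, h2⟩ := exists_seq_of_forall_finset_exists (fun a => a ∈ A)
    (fun a b => ¬ Cl U m a b) (fun s _ => by
      obtain ⟨a, ha, ha'⟩ := hm s
      exact ⟨a, ha, fun x hx => ha' x hx⟩)
  refine ⟨m, φ, h1, fun i j hij => ?_⟩
  rcases lt_or_gt_of_ne hij with h | h
  · exact h2 i j h
  · exact fun hc => h2 j i h (hU.cl_symm hc)

/-- Among separated points at most finitely many are close to a given finite set. -/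
theorem finite_close {U : ℕ → Set G} (hU : Base U) {m : ℕ} {φ : ℕ → G}
    (hφ : ∀ i j, i ≠ j → ¬ Cl U m (φ i) (φ j)) (E : Finset G) :
    {i | ∃ p ∈ E, Cl U (m + 1) p (φ i)}.Finite := by
  have : {i | ∃ p ∈ E, Cl U (m + 1) p (φ i)} = ⋃ p ∈ E, {i | Cl U (m + 1) p (φ i)} := by
    ext i; simp
  rw [this]
  refine E.finite_toSet.biUnion fun p _ => ?_
  refine Set.Subsingleton.finite ?_
  intro i hi j hj
  by_contra hij
  exact hφ i j hij (hU.cl_trans (hU.cl_symm hi) hj)

/-- Pigeonhole: if `φ` is separated then, for infinitely many `L`, a suitable `χ L * φ N` is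
far from a given finite set. -/
theorem pigeon {U : ℕ → Set G} (hU : Base U) {m : ℕ} {φ : ℕ → G}
    (hφ : ∀ i j, i ≠ j → ¬ Cl U m (φ i) (φ j)) (E : Finset G) (χ : ℕ → G)
    {I J : Set ℕ} (hI : I.Infinite) (hJ : J.Infinite) :
    ∃ N ∈ I, {L | L ∈ J ∧ ∀ p ∈ E, ¬ Cl U (m + 1) p (χ L * φ N)}.Infinite := by
  classical
  by_contra hcon
  push Not at hcon
  obtain ⟨S, hSI, hS⟩ := hI.exists_subset_card_eq (E.card + 1)
  have hfin : (⋃ N ∈ S, {L | L ∈ J ∧ ∀ p ∈ E, ¬ Cl U (m + 1) p (χ L * φ N)}).Finite :=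
    S.finite_toSet.biUnion fun N hN => hcon N (hSI hN)
  obtain ⟨L, hL, hL'⟩ := hJ.exists_notMem_finite hfin
  have h1 : ∀ N ∈ S, ∃ p ∈ E, Cl U (m + 1) p (χ L * φ N) := by
    intro N hN
    by_contra hc
    push Not at hc
    exact hL' (mem_biUnion (Finset.mem_coe.2 hN) ⟨hL, hc⟩)
  choose! p hpE hp using h1
  obtain ⟨N, hN, N', hN', hne, heq⟩ := Finset.exists_ne_map_eq_of_card_lt_of_maps_to
    (s := S) (t := E) (by omega) (f := p) (fun N hN => hpE N hN)
  have h2 := hU.cl_trans (hU.cl_symm (hp N hN)) (heq ▸ hp N' hN')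
  exact hφ N N' hne (Base.cl_left _ |>.1 h2)

end Pool.Agent.H885R3
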