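import Pool.Agent.H885R3.GrpBase

/-!
The two fusion arguments.
-/

set_option autoImplicit false

open Set Filter Topology

namespace Pool.Agent.H885R3

variable {G : Type*} [Group G] [TopologicalSpace G]

/-- nodes: a branch together with a length -/
abbrev Node := (ℕ → ℕ) × ℕ

/-- the set of branches through a node -/
def Cyl (t : Node) : Set (ℕ → ℕ) := {β | ∀ i < t.2, β i = t.1 i}

/-- `Below t t'`: the node `t'` extends the node `t` -/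
def Below (t t' : Node) : Prop := t.2 ≤ t'.2 ∧ t'.1 ∈ Cyl t

theorem Below.refl (t : Node) : Below t t := ⟨le_rfl, fun _ _ => rfl⟩

theorem Below.cyl {t t' : Node} (h : Below t t') : Cyl t' ⊆ Cyl t := fun β hβ i hi => by
  rw [hβ i (hi.trans_le h.1), h.2 i hi]

theorem Below.trans {t t' t'' : Node} (h : Below t t') (h' : Below t' t'') : Below t t'' :=
  ⟨h.1.trans h'.1, h.cyl h'.2⟩

/-- the part of the image of `C` through a node -/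
def P (f : (ℕ → ℕ) → G) (C : Set (ℕ → ℕ)) (t : Node) : Set G := f '' (C ∩ Cyl t)

omit [Group G] [TopologicalSpace G] in
theorem Below.P {f : (ℕ → ℕ) → G} {C : Set (ℕ → ℕ)} {t t' : Node} (h : Below t t') :
    P f C t' ⊆ P f C t := image_mono (inter_subset_inter_right _ h.cyl)

theorem exists_cyl {α : ℕ → ℕ} {W : Set (ℕ → ℕ)} (hW : W ∈ 𝓝 α) (K : ℕ) :
    ∃ k, K ≤ k ∧ Cyl (α, k) ⊆ W := by
  obtain ⟨v, ⟨y, n, rfl⟩, hαv, hv⟩ :=
    (PiNat.isTopologicalBasis_cylinders (fun _ : ℕ => ℕ)).mem_nhds_iff.1 hW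
  refine ⟨max n K, le_max_right _ _, fun β hβ => hv ?_⟩
  rw [PiNat.mem_cylinder_iff] at hαv ⊢
  intro i hi
  rw [hβ i (lt_of_lt_of_le hi (le_max_left _ _)), ← hαv i hi]

omit [Group G] in
theorem near {f : (ℕ → ℕ) → G} (hf : Continuous f) {C : Set (ℕ → ℕ)} {α : ℕ → ℕ}
    {W : Set G} (hW : W ∈ 𝓝 (f α)) (K : ℕ) :
    ∃ k, K ≤ k ∧ P f C (α, k) ⊆ W := by
  obtain ⟨k, hk, hk'⟩ := exists_cyl (hf.continuousAt hW) K
  refine ⟨k, hk, ?_⟩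
  rintro _ ⟨β, hβ, rfl⟩
  exact hk' hβ.2

omit [Group G] [TopologicalSpace G] in
theorem fusion {f : (ℕ → ℕ) → G} {C : Set (ℕ → ℕ)} (hC : IsClosed C) (t : ℕ → Node)
    (h1 : ∀ i, (t i).1 ∈ C) (h2 : ∀ i, Below (t i) (t (i + 1)))
    (h3 : ∀ i, (t i).2 < (t (i + 1)).2) : ∃ x : G, ∀ i, x ∈ P f C (t i) := by
  have hB : ∀ i j, i ≤ j → Below (t i) (t j) := by
    intro i j hij
    induction hij with
    | refl => exact Below.refl _
    | step _ ih => exact ih.trans (h2 _)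
  have hlen : ∀ i, i ≤ (t i).2 := by
    intro i
    induction i with
    | zero => exact Nat.zero_le _
    | succ i ih => exact Nat.succ_le_of_lt (lt_of_le_of_lt ih (h3 i))
  let α : ℕ → ℕ := fun n => (t (n + 1)).1 n
  have hα : ∀ i, α ∈ Cyl (t i) := by
    intro i n hn
    rcases le_total (n + 1) i with h | h
    · have := (hB _ _ h).2 n (lt_of_lt_of_le (Nat.lt_succ_self n) (hlen (n + 1)))
      exact this.symm
    · exact (hB _ _ h).2 n hn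
  have hαC : α ∈ C := by
    rw [← hC.closure_eq, mem_closure_iff_nhds]
    intro W hW
    obtain ⟨k, -, hk⟩ := exists_cyl hW 0
    refine ⟨(t k).1, hk fun i hi => ?_, h1 k⟩
    exact (hα k i (hi.trans_le (hlen k))).symm
  exact ⟨f α, fun i => ⟨α, ⟨hαC, hα i⟩, rfl⟩⟩

/-- the property deciding between the two fusion arguments -/
def AA (U : ℕ → Set G) (f : (ℕ → ℕ) → G) (C : Set (ℕ → ℕ)) (t s : Node) : Prop :=
  ∃ (m : ℕ) (φ : ℕ → G), (∀ i, φ i ∈ P f C t) ∧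
    (∀ i j, i ≠ j → ¬ Cl U m (φ i) (φ j)) ∧
    ∀ m', ∃ ψ ∈ P f C s, ∃ c : G, {N | Cl U m' c ((φ N)⁻¹ * ψ⁻¹)}.Infinite

/-- `g` avoids the finite set `H n` at a test point -/
def Good (U : ℕ → Set G) (D : ℕ → G) (H : ℕ → Finset G) (n : ℕ) (g : G) : Prop :=
  ∃ v, (v = 1 ∨ ∃ j ≤ n, v = D j) ∧ ∀ p ∈ H n, ¬ Cl U n p (g * v)

/-- the state of the first fusion -/
def Ready (U : ℕ → Set G) (f : (ℕ → ℕ) → G) (C : Set (ℕ → ℕ)) (D : ℕ → G)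
    (H : ℕ → Finset G) (X Y Z : Node) (b : ℕ) : Prop :=
  ∀ B, b ≤ B → ∃ Z' : Node, Z'.1 ∈ C ∧ Below Z Z' ∧ ∀ z ∈ P f C Z', ∀ y ∈ P f C Y,
    ∀ x ∈ P f C X, ∀ n, b ≤ n → n ≤ B → Good U D H n (z * y * x)

variable {U : ℕ → Set G} {f : (ℕ → ℕ) → G} {C : Set (ℕ → ℕ)} {D : ℕ → G}

theorem ready_of [IsTopologicalGroup G] (hU : Base U) (hf : Continuous f)
    {H : ℕ → Finset G} {X Y Z : Node} {b b' mz j : ℕ} {χ : ℕ → G} {J : Set ℕ}
    (hχ : ∀ L, χ L ∈ P f C Z) (hsep : ∀ i j, i ≠ j → ¬ Cl U mz (χ i) (χ j))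
    (hJ : J.Infinite) (hj : j ≤ b') (hm : mz + 2 ≤ b')
    (hyx : ∀ y ∈ P f C Y, ∀ x ∈ P f C X, Cl U (mz + 3) 1 (y * x * D j))
    (hx : ∀ L ∈ J, ∃ W ∈ 𝓝 (χ L), ∀ z ∈ W, ∀ y ∈ P f C Y, ∀ x ∈ P f C X, ∀ n, b ≤ n →
      n < b' → ∀ p ∈ H n, ¬ Cl U n p (z * y * x)) : Ready U f C D H X Y Z b := by
  classical
  intro B hB
  have hfin := finite_close hU hsep ((Finset.range (B + 1)).biUnion H)
  obtain ⟨L, hLJ, hL⟩ := hJ.exists_notMem_finite hfin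
  obtain ⟨W, hW, hWx⟩ := hx L hLJ
  obtain ⟨γ, ⟨hγC, hγZ⟩, hγ⟩ := hχ L
  have hW' : W ∩ {z | Cl U (mz + 3) (χ L) z} ∈ 𝓝 (f γ) := by
    rw [hγ]; exact inter_mem hW (hU.nhds_cl _ _)
  obtain ⟨k, hk, hkW⟩ := near (C := C) hf hW' Z.2
  refine ⟨(γ, k), hγC, ⟨hk, hγZ⟩, ?_⟩
  intro z hz y hy x hxX n hbn hnB
  by_cases hn : n < b'
  · refine ⟨1, Or.inl rfl, fun p hp => ?_⟩
    rw [mul_one]
    exact hWx z (hkW hz).1 y hy x hxX n hbn hn p hp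
  · push Not at hn
    refine ⟨D j, Or.inr ⟨j, hj.trans hn, rfl⟩, fun p hp hc => hL ?_⟩
    refine ⟨p, Finset.mem_biUnion.2 ⟨n, Finset.mem_range.2 (by omega), hp⟩, ?_⟩
    have h1 : Cl U (mz + 3) z (z * y * x * D j) := by
      have := (Base.cl_left (U := U) (n := mz + 3) z).2 (hyx y hy x hxX)
      simpa [mul_assoc] using this
    have h2 : Cl U (mz + 2) (χ L) (z * y * x * D j) := hU.cl_trans (hkW hz).2 h1
    have h3 : Cl U (mz + 2) p (z * y * x * D j) := hU.cl_mono (hm.trans hn) hc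
    exact hU.cl_trans h3 (hU.cl_symm h2)

theorem stepA [IsTopologicalGroup G] (hU : Base U) (hf : Continuous f)
    (hP : ∀ t : Node, t.1 ∈ C → ¬ TB U (P f C t)) (hD : DenseRange D) {ρ : Node}
    (hA : ∀ t s : Node, t.1 ∈ C → s.1 ∈ C → Below ρ t → Below ρ s →
      ∃ t' s' : Node, t'.1 ∈ C ∧ s'.1 ∈ C ∧ Below t t' ∧ Below s s' ∧ AA U f C t' s')
    (H : ℕ → Finset G) {X Y Z : Node} {b : ℕ} (hX : X.1 ∈ C) (hY : Y.1 ∈ C)
    (hρX : Below ρ X) (hρY : Below ρ Y) (hR : Ready U f C D H X Y Z b) :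
    ∃ (X' Y' Z' : Node) (b' : ℕ), X'.1 ∈ C ∧ Y'.1 ∈ C ∧ Z'.1 ∈ C ∧ Below X X' ∧
      Below Y Y' ∧ Below Z Z' ∧ X.2 < X'.2 ∧ Y.2 < Y'.2 ∧ Z.2 < Z'.2 ∧ b < b' ∧
      Ready U f C D H X' Y' Z' b' ∧ ∀ z ∈ P f C Z', ∀ y ∈ P f C Y', ∀ x ∈ P f C X',
        ∀ n, b ≤ n → n ≤ b' → Good U D H n (z * y * x) := by
  classical
  obtain ⟨X1, Y1, hX1, hY1, hXX1, hYY1, mx, φ, hφP, hφsep, hAA⟩ := hA X Y hX hY hρX hρY
  set b1 := max (b + 1) (mx + 3) with hb1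
  obtain ⟨Z0, hZ0C, hZZ0, hZ0⟩ := hR b1 (by omega)
  set Z1 : Node := (Z0.1, max Z0.2 (Z.2 + 1)) with hZ1
  have hZ01 : Below Z0 Z1 := ⟨le_max_left _ _, fun _ _ => rfl⟩
  have hZ1C : Z1.1 ∈ C := hZ0C
  have hZZ1 : Z.2 < Z1.2 := lt_of_lt_of_le (Nat.lt_succ_self _) (le_max_right _ _)
  obtain ⟨mz, χ, hχP, hχsep⟩ := exists_separated hU (hP Z1 hZ1C)
  obtain ⟨ψ, hψ, c, hinf⟩ := hAA (mz + 6)
  obtain ⟨j, hj⟩ := hD.exists_mem_open (s := interior {a | Cl U (mz + 6) c a})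
    isOpen_interior ⟨c, mem_interior_iff_mem_nhds.2 (hU.nhds_cl (mz + 6) c)⟩
  have hj' : D j ∈ {a | Cl U (mz + 6) c a} := interior_subset hj
  set b2 := max (b1 + 1) (max j (mz + 2)) with hb2
  obtain ⟨N, hN, hJ⟩ := pigeon hU hφsep ((Finset.range b2).biUnion H)
    (fun L => χ L * ψ) hinf (infinite_univ (α := ℕ))
  have hNj : Cl U (mz + 5) 1 (ψ * φ N * D j) := by
    have h1 : Cl U (mz + 5) ((φ N)⁻¹ * ψ⁻¹) (D j) := hU.cl_trans (hU.cl_symm hN) hj'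
    have h2 := (Base.cl_left (U := U) (n := mz + 5) (ψ * φ N)).2 h1
    simpa [mul_assoc] using h2
  obtain ⟨β, ⟨hβC, hβX⟩, hβ⟩ := hφP N
  obtain ⟨α, ⟨hαC, hαY⟩, hα⟩ := hψ
  have hW0 : {g | Cl U (mx + 3) (ψ * φ N) g} ∩ {g | Cl U (mz + 3) 1 (g * D j)} ∈
      𝓝 (ψ * φ N) := by
    refine inter_mem (hU.nhds_cl _ _) ?_
    have hcont : Tendsto (fun g : G => g * D j) (𝓝 (ψ * φ N)) (𝓝 (ψ * φ N * D j)) :=
      (continuous_id.mul continuous_const).tendsto _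
    filter_upwards [hcont (hU.nhds_cl (mz + 4) (ψ * φ N * D j))] with g hg
    exact hU.cl_trans (hU.cl_mono (by omega) hNj) hg
  have hmul : Tendsto (fun q : G × G => q.1 * q.2) (𝓝 (f α) ×ˢ 𝓝 (f β)) (𝓝 (ψ * φ N)) := by
    rw [← nhds_prod_eq, ← hα, ← hβ]
    exact continuous_mul.tendsto _
  obtain ⟨W1, hW1, W2, hW2, hW12⟩ := mem_prod_iff.1 (hmul hW0)
  obtain ⟨kY, hkY, hkYW⟩ := near (C := C) hf hW1 (max Y1.2 (Y.2 + 1))
  obtain ⟨kX, hkX, hkXW⟩ := near (C := C) hf hW2 (max X1.2 (X.2 + 1))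
  have hBY : Below Y1 (α, kY) := ⟨(le_max_left _ _).trans hkY, hαY⟩
  have hBX : Below X1 (β, kX) := ⟨(le_max_left _ _).trans hkX, hβX⟩
  have hyx : ∀ y ∈ P f C (α, kY), ∀ x ∈ P f C (β, kX),
      Cl U (mx + 3) (ψ * φ N) (y * x) ∧ Cl U (mz + 3) 1 (y * x * D j) := by
    intro y hy x hx
    have : (y, x) ∈ W1 ×ˢ W2 := ⟨hkYW hy, hkXW hx⟩
    exact hW12 this
  refine ⟨(β, kX), (α, kY), Z1, b1, hβC, hαC, hZ1C, hXX1.trans hBX, hYY1.trans hBY,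
    hZZ0.trans hZ01, lt_of_lt_of_le (Nat.lt_succ_self _) ((le_max_right _ _).trans hkX),
    lt_of_lt_of_le (Nat.lt_succ_self _) ((le_max_right _ _).trans hkY), hZZ1, by omega,
    ?_, ?_⟩
  · refine ready_of hU hf (b' := b2) (j := j) hχP hχsep hJ (by omega) (by omega)
      (fun y hy x hx => (hyx y hy x hx).2) ?_
    intro L hL
    have hcont : Tendsto (fun z : G => z * (ψ * φ N)) (𝓝 (χ L)) (𝓝 (χ L * (ψ * φ N))) :=
      (continuous_id.mul continuous_const).tendsto _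
    refine ⟨_, hcont (hU.nhds_cl (mx + 3) (χ L * (ψ * φ N))), ?_⟩
    intro z hz y hy x hx n hn1 hn2 p hp hc
    have h1 : Cl U (mx + 3) (z * (ψ * φ N)) (z * y * x) := by
      have := (Base.cl_left (U := U) (n := mx + 3) z).2 (hyx y hy x hx).1
      simpa [mul_assoc] using this
    have h2 : Cl U (mx + 2) (χ L * (ψ * φ N)) (z * y * x) := hU.cl_trans hz h1
    have h3 : Cl U (mx + 2) p (z * y * x) := hU.cl_mono (by omega) hc
    have h4 := hU.cl_trans h3 (hU.cl_symm h2)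
    refine hL.2 p (Finset.mem_biUnion.2 ⟨n, Finset.mem_range.2 hn2, hp⟩) ?_
    simpa [mul_assoc] using h4
  · intro z hz y hy x hx n hn1 hn2
    exact hZ0 z (hZ01.P hz) y ((hYY1.trans hBY).P hy) x ((hXX1.trans hBX).P hx) n hn1 hn2

theorem stratA [IsTopologicalGroup G] (hU : Base U) (hf : Continuous f) (hC : IsClosed C)
    (hP : ∀ t : Node, t.1 ∈ C → ¬ TB U (P f C t)) (hD : DenseRange D) {ρ : Node}
    (hρ : ρ.1 ∈ C)
    (hA : ∀ t s : Node, t.1 ∈ C → s.1 ∈ C → Below ρ t → Below ρ s →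
      ∃ t' s' : Node, t'.1 ∈ C ∧ s'.1 ∈ C ∧ Below t t' ∧ Below s s' ∧ AA U f C t' s') :
    ∃ b₀ : ℕ, ∀ H : ℕ → Finset G, ∃ g, ∀ n, b₀ ≤ n → Good U D H n g := by
  classical
  obtain ⟨mz, χ, hχP, hχsep⟩ := exists_separated hU (hP ρ hρ)
  set q := f ρ.1 * f ρ.1 with hq
  obtain ⟨j, hj⟩ := hD.exists_mem_open (s := interior {a | Cl U (mz + 6) (q⁻¹) a})
    isOpen_interior ⟨q⁻¹, mem_interior_iff_mem_nhds.2 (hU.nhds_cl (mz + 6) _)⟩
  have hj' : D j ∈ {a | Cl U (mz + 6) q⁻¹ a} := interior_subset hj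
  have hqj : Cl U (mz + 6) 1 (q * D j) := by
    have h2 := (Base.cl_left (U := U) (n := mz + 6) q).2 hj'
    simpa using h2
  have hW0 : {g | Cl U (mz + 3) 1 (g * D j)} ∈ 𝓝 q := by
    have hcont : Tendsto (fun g : G => g * D j) (𝓝 q) (𝓝 (q * D j)) :=
      (continuous_id.mul continuous_const).tendsto _
    filter_upwards [hcont (hU.nhds_cl (mz + 4) (q * D j))] with g hg
    exact hU.cl_trans (hU.cl_mono (by omega) hqj) hg
  have hmul : Tendsto (fun q : G × G => q.1 * q.2) (𝓝 (f ρ.1) ×ˢ 𝓝 (f ρ.1)) (𝓝 q) := by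
    rw [← nhds_prod_eq]
    exact continuous_mul.tendsto _
  obtain ⟨W1, hW1, W2, hW2, hW12⟩ := mem_prod_iff.1 (hmul hW0)
  obtain ⟨k, hk, hkW⟩ := near (C := C) hf (inter_mem hW1 hW2) ρ.2
  have hBρ : Below ρ (ρ.1, k) := ⟨hk, fun _ _ => rfl⟩
  refine ⟨max j (mz + 2), fun H => ?_⟩
  have hR0 : Ready U f C D H (ρ.1, k) (ρ.1, k) ρ (max j (mz + 2)) := by
    refine ready_of hU hf (b' := max j (mz + 2)) (j := j) hχP hχsep
      (infinite_univ (α := ℕ)) (le_max_left _ _) (le_max_right _ _) ?_ ?_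
    · intro y hy x hx
      have : (y, x) ∈ W1 ×ˢ W2 := ⟨(hkW hy).1, (hkW hx).2⟩
      exact hW12 this
    · intro L _
      exact ⟨univ, univ_mem, fun z _ y _ x _ n h1 h2 => absurd h2 (not_lt.2 h1)⟩
  let S := {s : Node × Node × Node × ℕ // s.1.1 ∈ C ∧ s.2.1.1 ∈ C ∧ s.2.2.1.1 ∈ C ∧
    Below ρ s.1 ∧ Below ρ s.2.1 ∧ Ready U f C D H s.1 s.2.1 s.2.2.1 s.2.2.2}
  have hstep : ∀ s : S, ∃ s' : S, Below s.1.1 s'.1.1 ∧ Below s.1.2.1 s'.1.2.1 ∧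
      Below s.1.2.2.1 s'.1.2.2.1 ∧ s.1.1.2 < s'.1.1.2 ∧ s.1.2.1.2 < s'.1.2.1.2 ∧
      s.1.2.2.1.2 < s'.1.2.2.1.2 ∧ s.1.2.2.2 < s'.1.2.2.2 ∧
      ∀ z ∈ P f C s'.1.2.2.1, ∀ y ∈ P f C s'.1.2.1, ∀ x ∈ P f C s'.1.1,
        ∀ n, s.1.2.2.2 ≤ n → n ≤ s'.1.2.2.2 → Good U D H n (z * y * x) := by
    rintro ⟨⟨X, Y, Z, b⟩, hX, hY, hZ, hρX, hρY, hR⟩
    obtain ⟨X', Y', Z', b', h1, h2, h3, h4, h5, h6, h7, h8, h9, h10, h11, h12⟩ :=
      stepA hU hf hP hD hA H hX hY hρX hρY hR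
    exact ⟨⟨⟨X', Y', Z', b'⟩, h1, h2, h3, hρX.trans h4, hρY.trans h5, h11⟩, h4, h5, h6,
      h7, h8, h9, h10, h12⟩
  choose nxt hnxt using hstep
  let s0 : S := ⟨((ρ.1, k), (ρ.1, k), ρ, max j (mz + 2)), hρ, hρ, hρ, hBρ, hBρ, hR0⟩
  let s : ℕ → S := fun i => Nat.rec s0 (fun _ => nxt) i
  have hs : ∀ i, s (i + 1) = nxt (s i) := fun i => rfl
  obtain ⟨x, hx⟩ := fusion (f := f) hC (fun i => (s i).1.1) (fun i => (s i).2.1)
    (fun i => (hnxt (s i)).1) (fun i => (hnxt (s i)).2.2.2.1)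
  obtain ⟨y, hy⟩ := fusion (f := f) hC (fun i => (s i).1.2.1) (fun i => (s i).2.2.1)
    (fun i => (hnxt (s i)).2.1) (fun i => (hnxt (s i)).2.2.2.2.1)
  obtain ⟨z, hz⟩ := fusion (f := f) hC (fun i => (s i).1.2.2.1) (fun i => (s i).2.2.2.1)
    (fun i => (hnxt (s i)).2.2.1) (fun i => (hnxt (s i)).2.2.2.2.2.1)
  refine ⟨z * y * x, fun n hn => ?_⟩
  have hb : ∀ i, (s i).1.2.2.2 < (s (i + 1)).1.2.2.2 := fun i =>
    (hnxt (s i)).2.2.2.2.2.2.1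
  have hb' : ∀ i, i ≤ (s i).1.2.2.2 := by
    intro i
    induction i with
    | zero => exact Nat.zero_le _
    | succ i ih => exact Nat.succ_le_of_lt (lt_of_le_of_lt ih (hb i))
  have hex : ∃ i, n ≤ (s (i + 1)).1.2.2.2 := ⟨n, (Nat.le_succ n).trans (hb' (n + 1))⟩
  have hlow : (s (Nat.find hex)).1.2.2.2 ≤ n := by
    rcases Nat.eq_zero_or_pos (Nat.find hex) with h0 | hpos
    · rw [h0]; exact hn
    · have := Nat.find_min hex (m := Nat.find hex - 1) (by omega)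
      have he : Nat.find hex - 1 + 1 = Nat.find hex := by omega
      rw [he] at this
      omega
  have hx' := hx (Nat.find hex + 1)
  have hy' := hy (Nat.find hex + 1)
  have hz' := hz (Nat.find hex + 1)
  have hup := Nat.find_spec hex
  rw [hs] at hx' hy' hz' hup
  exact (hnxt (s (Nat.find hex))).2.2.2.2.2.2.2 z hz' y hy' x hx' n hlow hup

end Pool.Agent.H885R3
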