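import Pool.Agent.H885R3.GrpStrat

/-!
The second fusion argument and the key theorem.
-/

set_option autoImplicit false

open Set Filter Topology

namespace Pool.Agent.H885R3

variable {G : Type*} [Group G] [TopologicalSpace G]
variable {U : ℕ → Set G} {f : (ℕ → ℕ) → G} {C : Set (ℕ → ℕ)} {D : ℕ → G}

/-- the state of the second fusion -/
def Prog (U : ℕ → Set G) (f : (ℕ → ℕ) → G) (C : Set (ℕ → ℕ)) (Y : Node) (b : ℕ) : Prop :=
  ∃ (m : ℕ) (ψ : ℕ → G), m + 3 ≤ b ∧ (∀ i, ψ i ∈ P f C Y) ∧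
    ∀ i j, i ≠ j → ¬ Cl U m (ψ i)⁻¹ (ψ j)⁻¹

theorem exists_prog (hU : Base U) {Y : Node} (h : ¬ TB U ((fun g : G => g⁻¹) '' P f C Y)) :
    ∃ b, Prog U f C Y b := by
  obtain ⟨m, φ, h1, h2⟩ := exists_separated hU h
  choose ψ hψ hψφ using h1
  refine ⟨m + 3, m, ψ, le_rfl, hψ, fun i j hij => ?_⟩
  have e1 : (ψ i)⁻¹ = φ i := hψφ i
  have e2 : (ψ j)⁻¹ = φ j := hψφ j
  rw [e1, e2]
  exact h2 i j hij

theorem stepB [IsTopologicalGroup G] (hU : Base U) (hf : Continuous f)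
    (hP : ∀ t : Node, t.1 ∈ C → ¬ TB U (P f C t)) {X₀ Y₀ : Node}
    (hB : ∀ t s : Node, t.1 ∈ C → s.1 ∈ C → Below X₀ t → Below Y₀ s → ¬ AA U f C t s)
    (hinv : ∀ s : Node, s.1 ∈ C → Below Y₀ s → ¬ TB U ((fun g : G => g⁻¹) '' P f C s))
    (H : ℕ → Finset G) {X Y : Node} {b : ℕ} (hX : X.1 ∈ C) (hY : Y.1 ∈ C)
    (hX₀ : Below X₀ X) (hY₀ : Below Y₀ Y) (hR : Prog U f C Y b) :
    ∃ (X' Y' : Node) (b' : ℕ), X'.1 ∈ C ∧ Y'.1 ∈ C ∧ Below X X' ∧ Below Y Y' ∧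
      X.2 < X'.2 ∧ Y.2 < Y'.2 ∧ b < b' ∧ Prog U f C Y' b' ∧
      ∀ y ∈ P f C Y', ∀ x ∈ P f C X', ∀ n, b ≤ n → n ≤ b' →
        ∀ p ∈ H n, ¬ Cl U n p (x⁻¹ * y⁻¹) := by
  classical
  obtain ⟨m, ψ, hmb, hψP, hψsep⟩ := hR
  obtain ⟨mx, φ, hφP, hφsep⟩ := exists_separated hU (hP X hX)
  have hnot : ∃ m0, ∀ ψ ∈ P f C Y, ∀ c : G, {N | Cl U m0 c ((φ N)⁻¹ * ψ⁻¹)}.Finite := by
    by_contra hcon
    push Not at hcon
    refine hB X Y hX hY hX₀ hY₀ ⟨mx, φ, hφP, hφsep, fun m' => ?_⟩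
    obtain ⟨ψ, hψ, c, hc⟩ := hcon m'
    exact ⟨ψ, hψ, c, hc⟩
  obtain ⟨m0, hm0⟩ := hnot
  set b1 := max (b + 1) (m0 + 3) with hb1
  obtain ⟨M, -, hJ⟩ := pigeon hU hψsep ((Finset.range b1).biUnion H)
    (fun N => (φ N)⁻¹) (infinite_univ (α := ℕ)) (infinite_univ (α := ℕ))
  obtain ⟨α, ⟨hαC, hαY⟩, hα⟩ := hψP M
  have hWY : {y : G | Cl U (max m m0 + 3) (ψ M)⁻¹ y⁻¹} ∈ 𝓝 (f α) := by
    rw [hα]
    exact continuous_inv.continuousAt (hU.nhds_cl _ _)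
  obtain ⟨kY, hkY, hkYW⟩ := near (C := C) hf hWY (Y.2 + 1)
  have hBY : Below Y (α, kY) := ⟨(Nat.le_succ _).trans hkY, hαY⟩
  obtain ⟨b2', m', ψ', hm', hψ'P, hψ'sep⟩ :=
    exists_prog hU (hinv (α, kY) hαC (hY₀.trans hBY))
  set b2 := max (b1 + 1) b2' with hb2
  have hfin : {N | ∃ p ∈ (Finset.range (b2 + 1)).biUnion H,
      Cl U m0 p ((φ N)⁻¹ * (ψ M)⁻¹)}.Finite := by
    have : {N | ∃ p ∈ (Finset.range (b2 + 1)).biUnion H,
        Cl U m0 p ((φ N)⁻¹ * (ψ M)⁻¹)} = ⋃ p ∈ (Finset.range (b2 + 1)).biUnion H,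
          {N | Cl U m0 p ((φ N)⁻¹ * (ψ M)⁻¹)} := by
      ext i; simp only [mem_setOf_eq, mem_iUnion, exists_prop]
    rw [this]
    exact (Finset.finite_toSet _).biUnion fun p _ => hm0 _ (hψP M) p
  obtain ⟨N, hNJ, hN⟩ := hJ.exists_notMem_finite hfin
  obtain ⟨β, ⟨hβC, hβX⟩, hβ⟩ := hφP N
  have hWX : {x : G | Cl U (max m m0 + 3) ((φ N)⁻¹ * (ψ M)⁻¹) (x⁻¹ * (ψ M)⁻¹)} ∈
      𝓝 (f β) := by
    rw [hβ]
    have hcont : Continuous (fun x : G => x⁻¹ * (ψ M)⁻¹) :=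
      continuous_inv.mul continuous_const
    exact hcont.continuousAt (hU.nhds_cl _ _)
  obtain ⟨kX, hkX, hkXW⟩ := near (C := C) hf hWX (X.2 + 1)
  have hBX : Below X (β, kX) := ⟨(Nat.le_succ _).trans hkX, hβX⟩
  refine ⟨(β, kX), (α, kY), b2, hβC, hαC, hBX, hBY, hkX, hkY, by omega,
    ⟨m', ψ', hm'.trans (le_max_right _ _), hψ'P, hψ'sep⟩, ?_⟩
  intro y hy x hx n hn1 hn2 p hp hc
  have h1 : Cl U (max m m0 + 3) (x⁻¹ * (ψ M)⁻¹) (x⁻¹ * y⁻¹) :=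
    (Base.cl_left _).2 (hkYW hy)
  have h2 : Cl U (max m m0 + 2) ((φ N)⁻¹ * (ψ M)⁻¹) (x⁻¹ * y⁻¹) :=
    hU.cl_trans (hkXW hx) h1
  by_cases hn : n < b1
  · have h3 : Cl U (m + 2) p (x⁻¹ * y⁻¹) := hU.cl_mono (by omega) hc
    have h4 := hU.cl_trans h3 (hU.cl_symm (hU.cl_mono (m := m + 2) (by omega) h2))
    exact hNJ.2 p (Finset.mem_biUnion.2 ⟨n, Finset.mem_range.2 hn, hp⟩) h4
  · push Not at hn
    have h3 : Cl U (m0 + 2) p (x⁻¹ * y⁻¹) := hU.cl_mono (by omega) hc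
    have h4 := hU.cl_trans h3 (hU.cl_symm (hU.cl_mono (m := m0 + 2) (by omega) h2))
    exact hN ⟨p, Finset.mem_biUnion.2 ⟨n, Finset.mem_range.2 (by omega), hp⟩,
      hU.cl_mono (Nat.le_succ _) h4⟩

theorem stratB [IsTopologicalGroup G] (hU : Base U) (hf : Continuous f) (hC : IsClosed C)
    (hP : ∀ t : Node, t.1 ∈ C → ¬ TB U (P f C t)) {X₀ Y₀ : Node} (hX₀ : X₀.1 ∈ C)
    (hY₀ : Y₀.1 ∈ C)
    (hB : ∀ t s : Node, t.1 ∈ C → s.1 ∈ C → Below X₀ t → Below Y₀ s → ¬ AA U f C t s)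
    (hinv : ∀ s : Node, s.1 ∈ C → Below Y₀ s → ¬ TB U ((fun g : G => g⁻¹) '' P f C s)) :
    ∃ b₀ : ℕ, ∀ H : ℕ → Finset G, ∃ g, ∀ n, b₀ ≤ n → ∀ p ∈ H n, ¬ Cl U n p g := by
  classical
  obtain ⟨b₀, hR0⟩ := exists_prog hU (hinv Y₀ hY₀ (Below.refl _))
  refine ⟨b₀, fun H => ?_⟩
  let S := {s : Node × Node × ℕ // s.1.1 ∈ C ∧ s.2.1.1 ∈ C ∧
    Below X₀ s.1 ∧ Below Y₀ s.2.1 ∧ Prog U f C s.2.1 s.2.2}
  have hstep : ∀ s : S, ∃ s' : S, Below s.1.1 s'.1.1 ∧ Below s.1.2.1 s'.1.2.1 ∧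
      s.1.1.2 < s'.1.1.2 ∧ s.1.2.1.2 < s'.1.2.1.2 ∧ s.1.2.2 < s'.1.2.2 ∧
      ∀ y ∈ P f C s'.1.2.1, ∀ x ∈ P f C s'.1.1,
        ∀ n, s.1.2.2 ≤ n → n ≤ s'.1.2.2 → ∀ p ∈ H n, ¬ Cl U n p (x⁻¹ * y⁻¹) := by
    rintro ⟨⟨X, Y, b⟩, hX, hY, hρX, hρY, hR⟩
    obtain ⟨X', Y', b', h1, h2, h4, h5, h7, h8, h10, h11, h12⟩ :=
      stepB hU hf hP hB hinv H hX hY hρX hρY hR
    exact ⟨⟨⟨X', Y', b'⟩, h1, h2, hρX.trans h4, hρY.trans h5, h11⟩, h4, h5,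
      h7, h8, h10, h12⟩
  choose nxt hnxt using hstep
  let s0 : S := ⟨(X₀, Y₀, b₀), hX₀, hY₀, Below.refl _, Below.refl _, hR0⟩
  let s : ℕ → S := fun i => Nat.rec s0 (fun _ => nxt) i
  have hs : ∀ i, s (i + 1) = nxt (s i) := fun i => rfl
  obtain ⟨x, hx⟩ := fusion (f := f) hC (fun i => (s i).1.1) (fun i => (s i).2.1)
    (fun i => (hnxt (s i)).1) (fun i => (hnxt (s i)).2.2.1)
  obtain ⟨y, hy⟩ := fusion (f := f) hC (fun i => (s i).1.2.1) (fun i => (s i).2.2.1)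
    (fun i => (hnxt (s i)).2.1) (fun i => (hnxt (s i)).2.2.2.1)
  refine ⟨x⁻¹ * y⁻¹, fun n hn => ?_⟩
  have hb : ∀ i, (s i).1.2.2 < (s (i + 1)).1.2.2 := fun i =>
    (hnxt (s i)).2.2.2.2.1
  have hb' : ∀ i, i ≤ (s i).1.2.2 := by
    intro i
    induction i with
    | zero => exact Nat.zero_le _
    | succ i ih => exact Nat.succ_le_of_lt (lt_of_le_of_lt ih (hb i))
  have hex : ∃ i, n ≤ (s (i + 1)).1.2.2 := ⟨n, (Nat.le_succ n).trans (hb' (n + 1))⟩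
  have hlow : (s (Nat.find hex)).1.2.2 ≤ n := by
    rcases Nat.eq_zero_or_pos (Nat.find hex) with h0 | hpos
    · rw [h0]; exact hn
    · have := Nat.find_min hex (m := Nat.find hex - 1) (by omega)
      have he : Nat.find hex - 1 + 1 = Nat.find hex := by omega
      rw [he] at this
      omega
  have hx' := hx (Nat.find hex + 1)
  have hy' := hy (Nat.find hex + 1)
  have hup := Nat.find_spec hex
  rw [hs] at hx' hy' hup
  exact (hnxt (s (Nat.find hex))).2.2.2.2.2 y hy' x hx' n hlow hup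

theorem TB.mul_right [IsTopologicalGroup G] (hU : Base U) {A : Set G} (hA : TB U A)
    (g : G) (m : ℕ) : ∃ F : Finset G, ∀ a ∈ A, ∃ q ∈ F, Cl U m q (a * g) := by
  classical
  have hcont : Tendsto (fun u : G => g⁻¹ * u * g) (𝓝 1) (𝓝 1) := by
    have : Continuous (fun u : G => g⁻¹ * u * g) :=
      (continuous_const.mul continuous_id).mul continuous_const
    have h := this.tendsto 1
    simpa using h
  obtain ⟨m', hm'⟩ := hU.small _ (hcont (hU.nhds m))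
  obtain ⟨F, hF⟩ := hA m'
  refine ⟨F.image (· * g), fun a ha => ?_⟩
  obtain ⟨q, hq, hqa⟩ := hF a ha
  refine ⟨q * g, Finset.mem_image_of_mem _ hq, ?_⟩
  have := hm' hqa
  simpa [Cl, mul_inv_rev, mul_assoc] using this

/-- Key theorem. -/
theorem key [IsTopologicalGroup G] (hU : Base U) (hf : Continuous f) (hC : IsClosed C)
    (hne : C.Nonempty) (hP : ∀ t : Node, t.1 ∈ C → ¬ TB U (P f C t)) (hD : DenseRange D) :
    ∃ b₀ : ℕ, ∀ H : ℕ → Finset G, ∃ g, ∀ n, b₀ ≤ n → Good U D H n g := by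
  classical
  by_cases hA : ∃ ρ : Node, ρ.1 ∈ C ∧ ∀ t s : Node, t.1 ∈ C → s.1 ∈ C → Below ρ t →
      Below ρ s → ∃ t' s' : Node, t'.1 ∈ C ∧ s'.1 ∈ C ∧ Below t t' ∧ Below s s' ∧
        AA U f C t' s'
  · obtain ⟨ρ, hρ, hA⟩ := hA
    exact stratA hU hf hC hP hD hρ hA
  · have hs1 : ∃ ρ : Node, ρ.1 ∈ C ∧ ∀ s : Node, s.1 ∈ C → Below ρ s →
        ¬ TB U ((fun g : G => g⁻¹) '' P f C s) := by
      by_contra hcon
      push Not at hcon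
      obtain ⟨α, hα⟩ := hne
      refine hA ⟨(α, 0), hα, fun t s ht hs _ _ => ?_⟩
      obtain ⟨t', ht', htt', hTB⟩ := hcon t ht
      refine ⟨t', s, ht', hs, htt', Below.refl _, ?_⟩
      obtain ⟨m, φ, h1, h2⟩ := exists_separated hU (hP t' ht')
      refine ⟨m, φ, h1, h2, fun m' => ⟨f s.1, ⟨s.1, ⟨hs, fun _ _ => rfl⟩, rfl⟩, ?_⟩⟩
      obtain ⟨F, hF⟩ := hTB.mul_right hU (f s.1)⁻¹ m'
      by_contra hc
      push Not at hc
      have hfin : (⋃ q ∈ F, {N | Cl U m' q ((φ N)⁻¹ * (f s.1)⁻¹)}).Finite :=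
        F.finite_toSet.biUnion fun q _ => hc q
      refine (infinite_univ (α := ℕ)) (hfin.subset fun N _ => ?_)
      obtain ⟨q, hq, hqN⟩ := hF (φ N)⁻¹ ⟨φ N, h1 N, rfl⟩
      exact mem_biUnion (Finset.mem_coe.2 hq) hqN
    obtain ⟨ρ, hρ, hinv⟩ := hs1
    have hA' : ∃ t s : Node, t.1 ∈ C ∧ s.1 ∈ C ∧ Below ρ t ∧ Below ρ s ∧
        ∀ t' s' : Node, t'.1 ∈ C → s'.1 ∈ C → Below t t' → Below s s' →
          ¬ AA U f C t' s' := by
      by_contra hcon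
      push Not at hcon
      refine hA ⟨ρ, hρ, fun t s ht hs h1 h2 => ?_⟩
      exact hcon t s ht hs h1 h2
    obtain ⟨t, s, ht, hs, hρt, hρs, hB⟩ := hA'
    obtain ⟨b₀, hb₀⟩ := stratB hU hf hC hP ht hs hB
      (fun s' hs' hss' => hinv s' hs' (hρs.trans hss'))
    refine ⟨b₀, fun H => ?_⟩
    obtain ⟨g, hg⟩ := hb₀ H
    refine ⟨g, fun n hn => ⟨1, Or.inl rfl, fun p hp => ?_⟩⟩
    rw [mul_one]
    exact hg n hn p hp

omit [TopologicalSpace G] in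
/-- The set `C`: if the whole image is not Hurewicz-bounded, there is a closed set of branches
no relatively open part of whose image is totally bounded. -/
theorem exists_C (hf : ¬ HB U (range f)) :
    ∃ C : Set (ℕ → ℕ), IsClosed C ∧ C.Nonempty ∧
      ∀ t : Node, t.1 ∈ C → ¬ TB U (P f C t) := by
  let 𝒪 : Set (Set (ℕ → ℕ)) := {O | IsOpen O ∧ HB U (f '' O)}
  obtain ⟨T, hTc, hTO, hTU⟩ := TopologicalSpace.isOpen_sUnion_countable 𝒪 fun s hs => hs.1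
  have hHB : HB U (f '' (⋃₀ 𝒪)) := by
    rw [← hTU, sUnion_eq_biUnion, image_iUnion₂]
    have := HB.sUnion (U := U) (T := (fun O => f '' O) '' T) (hTc.image _) (by
      rintro _ ⟨O, hO, rfl⟩
      exact (hTO hO).2)
    refine this.mono ?_
    intro a ha
    obtain ⟨O, hO, ha⟩ := mem_iUnion₂.1 ha
    exact ⟨_, ⟨O, hO, rfl⟩, ha⟩
  refine ⟨(⋃₀ 𝒪)ᶜ, ?_, ?_, ?_⟩
  · exact (isOpen_sUnion fun s hs => hs.1).isClosed_compl
  · by_contra hc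
    rw [not_nonempty_iff_eq_empty, compl_empty_iff] at hc
    rw [hc, image_univ] at hHB
    exact hf hHB
  · intro t ht hTB
    refine ht ⟨Cyl t, ⟨?_, ?_⟩, fun _ _ => rfl⟩
    · have : Cyl t = PiNat.cylinder (E := fun _ => ℕ) t.1 t.2 := rfl
      rw [this]
      exact PiNat.isOpen_cylinder _ _ _
    · refine (hTB.hb.union hHB).mono ?_
      rintro _ ⟨β, hβ, rfl⟩
      by_cases hβC : β ∈ (⋃₀ 𝒪)
      · exact Or.inr ⟨β, hβC, rfl⟩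
      · exact Or.inl ⟨β, ⟨hβC, hβ⟩, rfl⟩

/-- Menger-bounded analytic groups are Hurewicz-bounded, in terms of `Cl`. -/
theorem hb_of_menger [IsTopologicalGroup G] (hU : Base U) (hf : Continuous f)
    (hsurj : Function.Surjective f)
    (hM : ∀ V : ℕ → Set G, (∀ n, IsOpen (V n) ∧ (1 : G) ∈ V n) →
      ∃ F : ℕ → Finset G, ∀ g, ∃ n, ∃ q ∈ F n, q⁻¹ * g ∈ V n) :
    HB U (univ : Set G) := by
  classical
  by_contra hcon
  rw [← hsurj.range_eq] at hcon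
  obtain ⟨C, hC, hne, hP⟩ := exists_C hcon
  have hsep : TopologicalSpace.SeparableSpace G := hsurj.denseRange.separableSpace hf
  have hG : Nonempty G := ⟨1⟩
  obtain ⟨b₀, hb₀⟩ := key hU hf hC hne hP (TopologicalSpace.denseRange_denseSeq G)
  set D := TopologicalSpace.denseSeq G with hDdef
  let T : ℕ → Finset G := fun n => insert 1 ((Finset.range (n + 1)).image D)
  have hT : ∀ n v, (v = 1 ∨ ∃ j ≤ n, v = D j) → v ∈ T n := by
    rintro n v (rfl | ⟨j, hj, rfl⟩)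
    · exact Finset.mem_insert_self _ _
    · exact Finset.mem_insert_of_mem (Finset.mem_image_of_mem _
        (Finset.mem_range.2 (by omega)))
  have hV : ∀ n, ∃ V : Set G, IsOpen V ∧ (1 : G) ∈ V ∧
      ∀ u ∈ V, ∀ v ∈ T (n + b₀), Cl U (n + b₀) v (u * v) := by
    intro n
    have hmem : (⋂ v ∈ T (n + b₀), {u : G | Cl U (n + b₀) v (u * v)}) ∈ 𝓝 (1 : G) := by
      refine (Filter.biInter_finset_mem _).2 fun v _ => ?_
      have hcont : Tendsto (fun u : G => u * v) (𝓝 1) (𝓝 (1 * v)) :=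
        (continuous_id.mul continuous_const).tendsto _
      rw [one_mul] at hcont
      exact hcont (hU.nhds_cl (n + b₀) v)
    obtain ⟨V, hVsub, hVo, hV1⟩ := mem_nhds_iff.1 hmem
    refine ⟨V, hVo, hV1, fun u hu v hv => ?_⟩
    exact mem_iInter₂.1 (hVsub hu) v hv
  choose V hVo hV1 hVT using hV
  obtain ⟨F, hF⟩ := hM V fun n => ⟨hVo n, hV1 n⟩
  let H : ℕ → Finset G := fun n => (F (n - b₀)).biUnion fun q => (T n).image fun v => q * v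
  obtain ⟨g, hg⟩ := hb₀ H
  obtain ⟨n, q, hq, hqg⟩ := hF g
  obtain ⟨v, hv, hvp⟩ := hg (n + b₀) (Nat.le_add_left _ _)
  have hvT := hT _ _ hv
  refine hvp (q * v) ?_ ?_
  · simp only [H]
    rw [Nat.add_sub_cancel]
    exact Finset.mem_biUnion.2 ⟨q, hq, Finset.mem_image_of_mem _ hvT⟩
  · have h1 := hVT n _ hqg v hvT
    have h2 := (Base.cl_left (U := U) (n := n + b₀) q).2 h1
    simpa [mul_assoc] using h2

end Pool.Agent.H885R3
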