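import Pool.Agent.H753R3.LM.Stmts

set_option autoImplicit false

/-! Task T0 of project H753-LM. -/

namespace Pool.Agent.H885R3.LMT0

open Topology Filter Set Pool.Agent.H753R3.LM
open scoped Pointwise

theorem taskT0 : TaskT0 := by
  classical
  intro G _ _ _ _ _ V hV hn hS
  have hmono : ∀ n, V (n + 1) ⊆ V n := fun n x hx => by
    simpa using hV.add n x hx 0 (hV.zero _)
  have hanti : Antitone V := antitone_nat_of_succ_le hmono
  have hcl : ∀ (n : ℕ) (x : G), (∀ U ∈ 𝓝 x, ∃ a ∈ V (n + 1), a ∈ U) → x ∈ V n := by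
    intro n x hx
    have h1 : {y : G | y - x ∈ V (n + 1)} ∈ 𝓝 x := by
      have h2 : Tendsto (fun y : G => y - x) (𝓝 x) (𝓝 0) := by
        have h3 : Continuous (fun y : G => y - x) := by fun_prop
        have h4 := h3.tendsto x
        rwa [sub_self] at h4
      exact h2 (hn (n + 1))
    obtain ⟨a, ha, hax⟩ := hx _ h1
    have h5 := hV.add n a ha _ (hV.neg _ _ hax)
    simpa using h5
  let K : AddSubgroup G :=
    { carrier := ⋂ n, V n
      zero_mem' := mem_iInter.2 fun n => hV.zero n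
      add_mem' := fun {x y} hx hy => mem_iInter.2 fun n =>
        hV.add n x (mem_iInter.1 hx _) y (mem_iInter.1 hy _)
      neg_mem' := fun {x} hx => mem_iInter.2 fun n => hV.neg n x (mem_iInter.1 hx n) }
  have hK : ∀ x : G, x ∈ K ↔ ∀ n, x ∈ V n := fun x => mem_iInter
  have hKV : ∀ n, (K : Set G) ⊆ V n := fun n x hx => (hK x).1 hx n
  have hclosed : IsClosed (K : Set G) := by
    apply isClosed_of_closure_subset
    intro x hx
    refine (hK x).2 fun n => hcl n x fun U hU => ?_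
    obtain ⟨a, ha, haK⟩ := mem_closure_iff_nhds.1 hx U hU
    exact ⟨a, hKV _ haK, ha⟩
  have hcover : ∀ U ∈ 𝓝 (0 : G), ∃ n, ∃ t : Set G, t.Finite ∧ V n ⊆ ⋃ y ∈ t, y +ᵥ U := by
    intro U hU
    obtain ⟨n, F, hF⟩ := hS U hU
    refine ⟨n, F, F.finite_toSet, fun x hx => ?_⟩
    obtain ⟨f, hf, hfx⟩ := hF x hx
    refine mem_iUnion₂.2 ⟨f, hf, ?_⟩
    rw [mem_vadd_set]
    exact ⟨x - f, hfx, by simp⟩
  have hcomp : IsCompact (K : Set G) := by
    refine TotallyBounded.isCompact_of_isClosed ?_ hclosed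
    rw [totallyBounded_iff_subset_finite_iUnion_nhds_zero]
    intro U hU
    obtain ⟨n, t, ht, hs⟩ := hcover U hU
    exact ⟨t, ht, (hKV n).trans hs⟩
  have hkey : ∀ U ∈ 𝓝 (0 : G), ∃ m, ∀ x ∈ V m, ∃ k ∈ K, x - k ∈ U := by
    intro U hU
    by_contra hcon
    push Not at hcon
    choose x hxV hx using hcon
    have htb : TotallyBounded (range x) := by
      rw [totallyBounded_iff_subset_finite_iUnion_nhds_zero]
      intro U' hU'
      obtain ⟨n, t, ht, hs⟩ := hcover U' hU'
      refine ⟨t ∪ x '' (Finset.range n), ht.union ((Finset.range n).finite_toSet.image x), ?_⟩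
      rintro _ ⟨m, rfl⟩
      rcases lt_or_ge m n with h | h
      · refine mem_iUnion₂.2 ⟨x m, Or.inr ⟨m, by simpa using h, rfl⟩, ?_⟩
        rw [mem_vadd_set]
        exact ⟨0, mem_of_mem_nhds hU', by simp⟩
      · obtain ⟨y, hy, hxy⟩ := mem_iUnion₂.1 (hs (hanti h (hxV m)))
        exact mem_iUnion₂.2 ⟨y, Or.inl hy, hxy⟩
    have hc : IsCompact (closure (range x)) :=
      htb.closure.isCompact_of_isClosed isClosed_closure
    obtain ⟨z, -, hz⟩ := hc.exists_mapClusterPt (f := atTop) (u := x)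
      (le_principal_iff.2 (mem_map.2 (Eventually.of_forall fun m =>
        subset_closure (mem_range_self m))))
    have hfr := fun s hs => (mapClusterPt_iff_frequently.1 hz) s hs
    have hzK : z ∈ K := by
      refine (hK z).2 fun n => hcl n z fun U' hU' => ?_
      obtain ⟨m, hm, hmU⟩ := (frequently_atTop.1 (hfr U' hU')) (n + 1)
      exact ⟨x m, hanti hm (hxV m), hmU⟩
    have h1 : {y : G | y - z ∈ U} ∈ 𝓝 z := by
      have h2 : Tendsto (fun y : G => y - z) (𝓝 z) (𝓝 0) := by
        have h3 : Continuous (fun y : G => y - z) := by fun_prop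
        have h4 := h3.tendsto z
        rwa [sub_self] at h4
      exact h2 hU
    obtain ⟨m, hm⟩ := (hfr _ h1).exists
    exact hx m z hzK hm
  refine ⟨K, hcomp, ?_⟩
  have hbasis : (𝓝 (0 : G ⧸ K)).HasBasis (fun _ : ℕ => True)
      (fun n => ((↑) : G → G ⧸ K) '' (V n)) := by
    have h0 : (𝓝 (0 : G ⧸ K)) = map ((↑) : G → G ⧸ K) (𝓝 (0 : G)) := by
      have := QuotientAddGroup.nhds_eq K (0 : G)
      rwa [QuotientAddGroup.mk_zero] at this
    refine ⟨fun S => ⟨fun hS => ?_, ?_⟩⟩
    · rw [h0, mem_map] at hS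
      obtain ⟨m, hm⟩ := hkey _ hS
      refine ⟨m, trivial, ?_⟩
      rintro _ ⟨x, hx, rfl⟩
      obtain ⟨k, hk, hxk⟩ := hm x hx
      have h1 : ((x - k : G) : G ⧸ K) = (x : G ⧸ K) := by
        rw [QuotientAddGroup.mk_sub, (QuotientAddGroup.eq_zero_iff k).2 hk, sub_zero]
      have h2 : ((x - k : G) : G ⧸ K) ∈ S := hxk
      rwa [h1] at h2
    · rintro ⟨n, -, hnS⟩
      rw [h0]
      exact mem_of_superset (image_mem_map (hn n)) hnS
  have hcg : (𝓝 (0 : G ⧸ K)).IsCountablyGenerated := hbasis.isCountablyGenerated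
  have : IsClosed (K : Set G) := hclosed
  let _ : UniformSpace (G ⧸ K) := IsTopologicalAddGroup.rightUniformSpace (G ⧸ K)
  have : IsUniformAddGroup (G ⧸ K) := isUniformAddGroup_of_addCommGroup
  have : (uniformity (G ⧸ K)).IsCountablyGenerated :=
    IsUniformAddGroup.uniformity_countably_generated
  exact UniformSpace.metrizableSpace

end Pool.Agent.H885R3.LMT0
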