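import Pool.Agent.H39R3.PB.Basic
import Pool.Agent.H760R2.PalT7

/-!
# H39-PAL, TaskT7: summation over `q` in base `b` (port of `Pool.Agent.H760R2.PalT7`)
-/

set_option autoImplicit false

namespace Pool.Agent.H885R3.PBT7

open Finset Filter Topology Pool.Agent.Helper112 Pool.Agent.H39R3.PB
open Pool.Agent.H760R2.PalT7 (dec small)

/-- dyadic decomposition -/
lemma cover (M D : ℕ) (g : ℕ → ℝ) (hg : ∀ q, 0 ≤ g q) :
    ∑ q ∈ (Icc 2 D).filter (fun q => q.Coprime M), g q ≤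
      ∑ j ∈ Icc 1 (Nat.log 2 D), ∑ q ∈ (Ico (2 ^ j) (2 * 2 ^ j)).filter (fun q => q.Coprime M),
        g q := by
  have hmaps : ∀ q ∈ (Icc 2 D).filter (fun q => q.Coprime M), Nat.log 2 q ∈ Icc 1 (Nat.log 2 D) := by
    intro q hq
    rw [mem_filter, mem_Icc] at hq
    rw [mem_Icc]
    exact ⟨Nat.log_pos (by norm_num) hq.1.1, Nat.log_mono_right hq.1.2⟩
  rw [← sum_fiberwise_of_maps_to hmaps]
  apply sum_le_sum
  intro j _
  apply sum_le_sum_of_subset_of_nonneg
  · intro q hq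
    rw [mem_filter, mem_filter, mem_Icc] at hq
    obtain ⟨⟨⟨h1, h2⟩, h3⟩, h4⟩ := hq
    rw [mem_filter, mem_Ico]
    refine ⟨⟨?_, ?_⟩, h3⟩
    · rw [← h4]; exact Nat.pow_log_le_self 2 (by omega)
    · rw [← h4]
      have := Nat.lt_pow_succ_log_self (b := 2) (by norm_num) q
      rw [pow_succ] at this
      omega
  · intro q _ _
    exact hg q

lemma U_nonneg (b L q : ℕ) : 0 ≤ U b L q := sum_nonneg fun _ _ => Ps_nonneg _ _ _ _ _

/-- a dyadic block in terms of `pts` -/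
lemma block (b L Q : ℕ) (hQ : 1 ≤ Q) (d C : ℝ) (hd : 0 ≤ d) (hC : 0 ≤ C)
    (hτ : ∀ n : ℕ, 1 ≤ n → (n.divisors.card : ℝ) ^ 2 ≤ C * (n : ℝ) ^ d) :
    ∑ q ∈ (Ico Q (2 * Q)).filter (fun q => q.Coprime (2 * b)),
      (q.divisors.card : ℝ) ^ 2 * U b L q / q ≤
      C * (2 * Q : ℝ) ^ d / Q * pts b Q (Ps b L 0 L) := by
  unfold pts
  rw [mul_sum]
  apply sum_le_sum
  intro q hq
  rw [mem_filter, mem_Ico] at hq
  obtain ⟨⟨h1, h2⟩, h3⟩ := hq
  have hQ0 : (0 : ℝ) < Q := by exact_mod_cast hQ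
  have hq0 : (0 : ℝ) < q := by exact_mod_cast (show 0 < q by omega)
  have hU := U_nonneg b L q
  have e1 : (q.divisors.card : ℝ) ^ 2 ≤ C * (2 * Q : ℝ) ^ d := by
    refine (hτ q (by omega)).trans (mul_le_mul_of_nonneg_left ?_ hC)
    apply Real.rpow_le_rpow hq0.le _ hd
    exact_mod_cast h2.le
  have e2 : (1 : ℝ) / q ≤ 1 / Q := by
    apply one_div_le_one_div_of_le hQ0
    exact_mod_cast h1
  calc (q.divisors.card : ℝ) ^ 2 * U b L q / q
      = (q.divisors.card : ℝ) ^ 2 * U b L q * (1 / q) := by ring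
    _ ≤ (C * (2 * Q : ℝ) ^ d) * U b L q * (1 / Q) := by
        apply mul_le_mul (mul_le_mul_of_nonneg_right e1 hU) e2 (by positivity)
        have : 0 ≤ C * (2 * Q : ℝ) ^ d := by positivity
        exact mul_nonneg this hU
    _ = C * (2 * Q : ℝ) ^ d / Q * U b L q := by ring

/-- the small range: a dyadic block -/
lemma block_small (b : ℕ) (hb : 2 ≤ b) (κ : ℝ) (h1 : κ < 1)
    (hp : ∀ q t a L : ℕ, 1 < q → q.Coprime (2 * b) → a.Coprime q →
      q < b ^ t → Ps b L 0 L ((a : ℝ) / q) ≤ (1 - κ) ^ ((L - 1) / (2 * t + 2)))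
    (L j : ℕ) (hj : 1 ≤ j) :
    ∑ q ∈ (Ico (2 ^ j) (2 * 2 ^ j)).filter (fun q => q.Coprime (2 * b)),
      (q.divisors.card : ℝ) ^ 2 * U b L q / q ≤
      (2 : ℝ) ^ (3 * j + 2) * (1 - κ) ^ ((L - 1) / (2 * j + 4)) := by
  have hk : 0 < 1 - κ := by linarith
  set E : ℝ := (1 - κ) ^ ((L - 1) / (2 * j + 4)) with hE
  have hE0 : 0 < E := by positivity
  have hterm : ∀ q ∈ (Ico (2 ^ j) (2 * 2 ^ j)).filter (fun q => q.Coprime (2 * b)),
      (q.divisors.card : ℝ) ^ 2 * U b L q / q ≤ (2 * 2 ^ j) ^ 2 * E := by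
    intro q hq
    rw [mem_filter, mem_Ico] at hq
    obtain ⟨⟨h2, h3⟩, h4⟩ := hq
    have h2j : 2 ^ 1 ≤ 2 ^ j := Nat.pow_le_pow_right (by norm_num) hj
    have hq1 : 1 < q := by omega
    have hq0 : (0 : ℝ) < q := by exact_mod_cast (show 0 < q by omega)
    have hq10 : q < b ^ (j + 1) := by
      calc q < 2 * 2 ^ j := h3
        _ = 2 ^ (j + 1) := by ring
        _ ≤ b ^ (j + 1) := Nat.pow_le_pow_left hb _
    have hU : U b L q ≤ q * E := by
      unfold U
      calc ∑ a ∈ (range q).filter (fun a => a.Coprime q), Ps b L 0 L ((a : ℝ) / q)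
          ≤ ∑ a ∈ (range q).filter (fun a => a.Coprime q), E := by
            apply sum_le_sum
            intro a ha
            rw [mem_filter] at ha
            have := hp q (j + 1) a L hq1 h4 ha.2 hq10
            have e : 2 * (j + 1) + 2 = 2 * j + 4 := by ring
            rw [e] at this
            exact this
        _ = (((range q).filter (fun a => a.Coprime q)).card : ℝ) * E := by
            rw [sum_const, nsmul_eq_mul]
        _ ≤ q * E := by
            apply mul_le_mul_of_nonneg_right _ hE0.le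
            have := card_filter_le (range q) (fun a => a.Coprime q)
            rw [card_range] at this
            exact_mod_cast this
    have hτ : (q.divisors.card : ℝ) ≤ 2 * 2 ^ j := by
      have e1 : q.divisors.card ≤ q := Nat.card_divisors_le_self q
      have e2 : q.divisors.card ≤ 2 * 2 ^ j := by omega
      exact_mod_cast e2
    rw [div_le_iff₀ hq0]
    calc (q.divisors.card : ℝ) ^ 2 * U b L q ≤ (2 * 2 ^ j) ^ 2 * (q * E) := by
          apply mul_le_mul _ hU (U_nonneg b L q) (by positivity)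
          exact pow_le_pow_left₀ (by positivity) hτ 2
      _ = (2 * 2 ^ j) ^ 2 * E * q := by ring
  calc _ ≤ ∑ q ∈ (Ico (2 ^ j) (2 * 2 ^ j)).filter (fun q => q.Coprime (2 * b)),
        ((2 * 2 ^ j) ^ 2 * E : ℝ) := sum_le_sum hterm
    _ = (((Ico (2 ^ j) (2 * 2 ^ j)).filter (fun q => q.Coprime (2 * b))).card : ℝ)
        * ((2 * 2 ^ j) ^ 2 * E) := by rw [sum_const, nsmul_eq_mul]
    _ ≤ 2 ^ j * ((2 * 2 ^ j) ^ 2 * E) := by
        apply mul_le_mul_of_nonneg_right _ (by positivity)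
        have := card_filter_le (Ico (2 ^ j) (2 * 2 ^ j)) (fun q => q.Coprime (2 * b))
        rw [Nat.card_Ico] at this
        have e : 2 * 2 ^ j - 2 ^ j = 2 ^ j := by omega
        rw [e] at this
        exact_mod_cast this
    _ = (2 : ℝ) ^ (3 * j + 2) * E := by ring

lemma clog_facts (b : ℕ) (hb : 2 ≤ b) (n : ℕ) (hn : 2 ≤ n) :
    n ≤ b ^ Nat.clog b n ∧ b ^ Nat.clog b n ≤ b * n ∧ 1 ≤ Nat.clog b n := by
  have h1 := Nat.le_pow_clog (b := b) (by omega) n
  have h2 := Nat.pow_pred_clog_lt_self (b := b) (by omega) (x := n) (by omega)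
  have h3 : 0 < Nat.clog b n := Nat.clog_pos (by omega) hn
  refine ⟨h1, ?_, h3⟩
  have h4 : Nat.clog b n = (Nat.clog b n).pred + 1 := (Nat.succ_pred_eq_of_pos h3).symm
  rw [h4, pow_succ, mul_comm]
  exact Nat.mul_le_mul_left b h2.le

/-- the middle range -/
lemma mid_range (b : ℕ) (hb : 2 ≤ b) (c1 C C0 θ : ℝ) (N : ℕ) (hc1 : 0 < c1) (hC : 0 < C)
    (hC0 : 0 < C0) (hθ0 : 0 < θ) (hθ1 : θ < 1) (hN : 1 ≤ N) (A : ℕ)
    (hτ : ∀ n : ℕ, 1 ≤ n → (n.divisors.card : ℝ) ^ 2 ≤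
      C * (n : ℝ) ^ (-Real.log θ / Real.log b))
    (mid : ∀ L J Q : ℕ, 1 + N * J ≤ L → 1 ≤ Q → Q ^ 2 ≤ b ^ J → b ^ J ≤ b * Q ^ 2 →
      pts b Q (Ps b L 0 L) ≤ C0 * Q * θ ^ J) :
    ∀ᶠ L : ℕ in atTop, ∀ j : ℕ, 1 ≤ j → c1 * Real.sqrt L < j →
      (2 : ℝ) ^ j ≤ (b : ℝ) ^ ((L : ℝ) * (1 / (4 * N))) →
      ∑ q ∈ (Ico (2 ^ j) (2 * 2 ^ j)).filter (fun q => q.Coprime (2 * b)),
        (q.divisors.card : ℝ) ^ 2 * U b L q / q ≤ 1 / (L : ℝ) ^ A := by
  have hbR : (2 : ℝ) ≤ b := by exact_mod_cast hb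
  have hB : 0 < Real.log b := Real.log_pos (by linarith)
  have hl2 : 0 < Real.log 2 := Real.log_pos (by norm_num)
  set B : ℝ := Real.log b with hBdef
  set l2 : ℝ := Real.log 2 with hl2def
  set lam : ℝ := -Real.log θ with hlam
  have hlam0 : 0 < lam := by
    have := Real.log_neg hθ0 hθ1
    rw [hlam]; linarith
  set μ : ℝ := lam * l2 / B with hμ
  have hμ0 : 0 < μ := by positivity
  have hNR : (1 : ℝ) ≤ N := by exact_mod_cast hN
  filter_upwards [dec (μ * c1) (C0 * C * Real.exp μ) (by positivity) (by positivity) A,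
    eventually_ge_atTop (2 * (N + 1))] with L hL hL105 j hj hcj hj50
  refine le_trans ?_ hL
  set Q : ℕ := 2 ^ j with hQ
  have hQ2 : 2 ≤ Q := by
    calc 2 = 2 ^ 1 := by norm_num
      _ ≤ 2 ^ j := Nat.pow_le_pow_right (by norm_num) hj
  have hQ0 : (0 : ℝ) < Q := by exact_mod_cast (show 0 < Q by omega)
  have hQr : (Q : ℝ) = 2 ^ j := by rw [hQ]; push_cast; ring
  have hQ4 : 2 ≤ Q ^ 2 := by nlinarith
  obtain ⟨f1, f2, f3⟩ := clog_facts b hb (Q ^ 2) hQ4
  set J : ℕ := Nat.clog b (Q ^ 2) with hJ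
  have hlogQ : Real.log Q ≤ (L : ℝ) * (1 / (4 * N)) * B := by
    have := Real.log_le_log (by positivity) hj50
    rw [Real.log_rpow (by linarith), ← hQr] at this
    exact this
  have hJL : 1 + N * J ≤ L := by
    have h1 : ((b ^ J : ℕ) : ℝ) ≤ ((b * Q ^ 2 : ℕ) : ℝ) := by exact_mod_cast f2
    push_cast at h1
    have h2 := Real.log_le_log (by positivity) h1
    rw [Real.log_pow, Real.log_mul (by positivity) (by positivity), Real.log_pow] at h2
    push_cast at h2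
    have h3 : (J : ℝ) * B ≤ (1 + (L : ℝ) * (1 / (2 * N))) * B := by
      have e : (L : ℝ) * (1 / (2 * N)) * B = 2 * ((L : ℝ) * (1 / (4 * N)) * B) := by
        field_simp
        ring
      rw [add_mul, one_mul, e]
      linarith
    have h4 := le_of_mul_le_mul_right h3 hB
    have h5 : (2 * ((N : ℝ) + 1)) ≤ L := by exact_mod_cast hL105
    have h7 : (N : ℝ) * J ≤ N + L / 2 := by
      calc (N : ℝ) * J ≤ N * (1 + (L : ℝ) * (1 / (2 * N))) :=
            mul_le_mul_of_nonneg_left h4 (by positivity)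
        _ = N + L / 2 := by field_simp
    have h6 : (1 : ℝ) + N * J ≤ L := by linarith
    exact_mod_cast h6
  have hpts := mid L J Q hJL (by omega) f1 f2
  have hbl := block b L Q (by omega) (lam / B) C (by positivity) hC.le hτ
  refine hbl.trans ?_
  have hpos : 0 ≤ C * (2 * Q : ℝ) ^ (lam / B) / Q := by positivity
  refine (mul_le_mul_of_nonneg_left hpts hpos).trans ?_
  -- J is at least 2 j log 2 / log b
  have hJ1 : 2 * (j : ℝ) * l2 ≤ J * B := by
    have h1 : ((Q ^ 2 : ℕ) : ℝ) ≤ ((b ^ J : ℕ) : ℝ) := by exact_mod_cast f1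
    push_cast at h1
    rw [hQr] at h1
    have h2 := Real.log_le_log (by positivity) h1
    rw [Real.log_pow, Real.log_pow, Real.log_pow] at h2
    push_cast at h2
    linarith
  have hJ2 : 2 * μ * j ≤ lam * J := by
    have e : 2 * μ * j = lam * ((2 * j * l2) / B) := by rw [hμ]; ring
    rw [e]
    apply mul_le_mul_of_nonneg_left _ hlam0.le
    rw [div_le_iff₀ hB]
    exact hJ1
  have h98 : θ ^ J ≤ Real.exp (-(2 * μ * j)) := by
    have h1 : θ = Real.exp (-lam) := by rw [hlam, neg_neg, Real.exp_log hθ0]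
    calc θ ^ J = Real.exp (-lam) ^ J := by rw [← h1]
      _ = Real.exp (J * (-lam)) := by rw [← Real.exp_nat_mul]
      _ ≤ Real.exp (-(2 * μ * j)) := by apply Real.exp_le_exp.2; linarith
  have h2Q : (2 * Q : ℝ) ^ (lam / B) = Real.exp (μ * (j + 1)) := by
    have h1 : (2 * Q : ℝ) = Real.exp ((j + 1) * Real.log 2) := by
      rw [hQr]
      have : ((j : ℝ) + 1) = ((j + 1 : ℕ) : ℝ) := by push_cast; ring
      rw [this, Real.exp_nat_mul, Real.exp_log (by norm_num)]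
      ring
    rw [h1, ← Real.exp_mul]
    congr 1
    rw [hμ, ← hl2def]
    ring
  calc C * (2 * Q : ℝ) ^ (lam / B) / Q * (C0 * Q * θ ^ J)
      = C0 * C * ((2 * Q : ℝ) ^ (lam / B) * θ ^ J) := by
        field_simp
    _ ≤ C0 * C * (Real.exp (μ * (j + 1)) * Real.exp (-(2 * μ * j))) := by
        apply mul_le_mul_of_nonneg_left _ (by positivity)
        rw [h2Q]
        exact mul_le_mul_of_nonneg_left h98 (Real.exp_pos _).le
    _ ≤ C0 * C * (Real.exp μ * Real.exp (-(μ * c1 * Real.sqrt L))) := by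
        apply mul_le_mul_of_nonneg_left _ (by positivity)
        rw [← Real.exp_add, ← Real.exp_add]
        apply Real.exp_le_exp.2
        have h1 : μ * (c1 * Real.sqrt L) ≤ μ * j := mul_le_mul_of_nonneg_left hcj.le hμ0.le
        linarith
    _ = C0 * C * Real.exp μ * Real.exp (-(μ * c1 * Real.sqrt L)) := by ring

/-- the large range -/
lemma large_range (b : ℕ) (hb : 2 ≤ b) (ε ρ c C C0 θ : ℝ) (hε : 0 < ε) (hρ : 0 < ρ)
    (hρ1 : 4 * ρ ≤ ε) (hρ2 : 4 * ρ ≤ c) (hC : 0 < C) (hC0 : 0 < C0) (hθ0 : 0 < θ) (hθ1 : θ < 1)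
    (A : ℕ)
    (hτ1 : ∀ n : ℕ, 1 ≤ n → (n.divisors.card : ℝ) ≤
      C * (n : ℝ) ^ (-Real.log θ * ρ / (6 * Real.log b)))
    (big : ∀ (L k J Q : ℕ) (T : ℝ),
      (∀ n : ℕ, 1 ≤ n → n ≤ b ^ (2 * L + 1) → (n.divisors.card : ℝ) ≤ T) →
      4 * k ≤ J → 1 ≤ J → 4 * k + 2 * J ≤ L → Q ≤ b ^ J → b ^ J ≤ b * Q →
      pts b Q (Ps b L 0 L) ≤ C0 * Q * T * θ ^ k) :
    ∀ᶠ L : ℕ in atTop, ∀ j : ℕ, 1 ≤ j →
      (b : ℝ) ^ ((L : ℝ) * c) < (2 : ℝ) ^ j → (2 : ℝ) ^ j ≤ (b : ℝ) ^ ((1 / 2 - ε) * L) →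
      ∑ q ∈ (Ico (2 ^ j) (2 * 2 ^ j)).filter (fun q => q.Coprime (2 * b)),
        (q.divisors.card : ℝ) ^ 2 * U b L q / q ≤ 1 / (L : ℝ) ^ A := by
  have hbR : (2 : ℝ) ≤ b := by exact_mod_cast hb
  have hB : 0 < Real.log b := Real.log_pos (by linarith)
  have hl2 : 0 < Real.log 2 := Real.log_pos (by norm_num)
  have hl2B : Real.log 2 ≤ Real.log b := Real.log_le_log (by norm_num) hbR
  set B : ℝ := Real.log b with hBdef
  set lam : ℝ := -Real.log θ with hlam
  have hlam0 : 0 < lam := by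
    have := Real.log_neg hθ0 hθ1
    rw [hlam]; linarith
  set δ : ℝ := lam * ρ / (6 * B) with hδ
  have hδ0 : 0 < δ := by positivity
  have hδB : δ * B = lam * ρ / 6 := by rw [hδ]; field_simp
  have hε2 : ∀ᶠ L : ℕ in atTop, 2 / ε ≤ (L : ℝ) :=
    tendsto_natCast_atTop_atTop.eventually_ge_atTop _
  filter_upwards [dec (lam * ρ / 2) (C0 * C ^ 3 * Real.exp (lam + lam * ρ / 2)) (by positivity)
    (by positivity) A, eventually_ge_atTop 2, hε2] with L hL hL2 hLε j hj hj50 hjD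
  refine le_trans ?_ hL
  set Q : ℕ := 2 ^ j with hQ
  have hQ2 : 2 ≤ Q := by
    calc 2 = 2 ^ 1 := by norm_num
      _ ≤ 2 ^ j := Nat.pow_le_pow_right (by norm_num) hj
  have hQ0 : (0 : ℝ) < Q := by exact_mod_cast (show 0 < Q by omega)
  have hQr : (Q : ℝ) = 2 ^ j := by rw [hQ]; push_cast; ring
  obtain ⟨f1, f2, f3⟩ := clog_facts b hb Q hQ2
  set J : ℕ := Nat.clog b Q with hJ
  have hLp : (2 : ℝ) ≤ L := by exact_mod_cast hL2
  rw [div_le_iff₀ hε] at hLε
  have hlogQ1 : Real.log Q ≤ ((1 / 2 - ε) * L) * B := by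
    have := Real.log_le_log (by positivity) hjD
    rw [Real.log_rpow (by linarith), ← hQr] at this
    exact this
  have hlogQ2 : (L : ℝ) * c * B ≤ Real.log Q := by
    have := Real.log_le_log (by positivity) hj50.le
    rw [Real.log_rpow (by linarith), ← hQr] at this
    exact this
  have hJu : (J : ℝ) ≤ 1 + (1 / 2 - ε) * L := by
    have h1 : ((b ^ J : ℕ) : ℝ) ≤ ((b * Q : ℕ) : ℝ) := by exact_mod_cast f2
    push_cast at h1
    have h2 := Real.log_le_log (by positivity) h1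
    rw [Real.log_pow, Real.log_mul (by positivity) (by positivity)] at h2
    have h3 : (J : ℝ) * B ≤ (1 + (1 / 2 - ε) * L) * B := by linarith
    exact le_of_mul_le_mul_right h3 hB
  have hJl : (L : ℝ) * c ≤ J := by
    have h1 : (Q : ℝ) ≤ ((b ^ J : ℕ) : ℝ) := by exact_mod_cast f1
    push_cast at h1
    have h2 := Real.log_le_log (by positivity) h1
    rw [Real.log_pow] at h2
    have h3 : (L : ℝ) * c * B ≤ (J : ℝ) * B := by linarith
    exact le_of_mul_le_mul_right h3 hB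
  set k : ℕ := ⌊ρ * L⌋₊ with hk
  have hk1 : (k : ℝ) ≤ ρ * L := Nat.floor_le (by positivity)
  have hk2 : ρ * L < k + 1 := Nat.lt_floor_add_one _
  have hρL : 4 * ρ * L ≤ c * L := mul_le_mul_of_nonneg_right hρ2 (by linarith)
  have hρL' : 4 * ρ * L ≤ ε * L := mul_le_mul_of_nonneg_right hρ1 (by linarith)
  have g1 : 4 * k ≤ J := by
    have : (4 : ℝ) * k ≤ J := by linarith
    exact_mod_cast this
  have g2 : 4 * k + 2 * J ≤ L := by
    have : (4 : ℝ) * k + 2 * J ≤ L := by linarith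
    exact_mod_cast this
  set T : ℝ := C * ((b : ℝ) ^ (2 * L + 1)) ^ δ with hT
  have hTp : ∀ n : ℕ, 1 ≤ n → n ≤ b ^ (2 * L + 1) → (n.divisors.card : ℝ) ≤ T := by
    intro n hn1 hn2
    refine (hτ1 n hn1).trans (mul_le_mul_of_nonneg_left ?_ hC.le)
    apply Real.rpow_le_rpow (by positivity) _ hδ0.le
    exact_mod_cast hn2
  have hpts := big L k J Q T hTp g1 f3 g2 f1 f2
  have hτ2 : ∀ n : ℕ, 1 ≤ n → (n.divisors.card : ℝ) ^ 2 ≤ C ^ 2 * (n : ℝ) ^ (2 * δ) := by
    intro n hn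
    have h1 := hτ1 n hn
    have h2 : ((n : ℝ) ^ δ) ^ 2 = (n : ℝ) ^ (2 * δ) := by
      rw [← Real.rpow_natCast, ← Real.rpow_mul (by positivity)]
      congr 1
      push_cast
      ring
    calc (n.divisors.card : ℝ) ^ 2 ≤ (C * (n : ℝ) ^ δ) ^ 2 :=
          pow_le_pow_left₀ (by positivity) h1 2
      _ = C ^ 2 * (n : ℝ) ^ (2 * δ) := by rw [mul_pow, h2]
  have hbl := block b L Q (by omega) (2 * δ) (C ^ 2) (by positivity) (by positivity) hτ2
  refine hbl.trans ?_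
  have hpos : 0 ≤ C ^ 2 * (2 * Q : ℝ) ^ (2 * δ) / Q := by positivity
  refine (mul_le_mul_of_nonneg_left hpts hpos).trans ?_
  -- size of 2Q
  have h2Q : (2 * Q : ℝ) ^ (2 * δ) ≤ Real.exp (lam * ρ / 6 * (2 + L)) := by
    have h1 : (2 * Q : ℝ) ≤ Real.exp (B * (1 + L / 2)) := by
      have h2 : Real.log (2 * Q : ℝ) ≤ B * (1 + L / 2) := by
        rw [Real.log_mul (by norm_num) (by positivity)]
        have h4 : ((1 / 2 - ε) * L) * B ≤ (1 / 2 * L) * B := by
          apply mul_le_mul_of_nonneg_right _ hB.le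
          nlinarith
        linarith
      calc (2 * Q : ℝ) = Real.exp (Real.log (2 * Q : ℝ)) := (Real.exp_log (by positivity)).symm
        _ ≤ Real.exp (B * (1 + L / 2)) := Real.exp_le_exp.2 h2
    calc (2 * Q : ℝ) ^ (2 * δ) ≤ Real.exp (B * (1 + L / 2)) ^ (2 * δ) :=
          Real.rpow_le_rpow (by positivity) h1 (by positivity)
      _ = Real.exp (δ * B * (2 + L)) := by rw [← Real.exp_mul]; ring_nf
      _ = _ := by rw [hδB]
  have hT2 : ((b : ℝ) ^ (2 * L + 1)) ^ δ = Real.exp (lam * ρ / 6 * (2 * L + 1)) := by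
    have h1 : (b : ℝ) ^ (2 * L + 1) = Real.exp (B * (2 * L + 1)) := by
      have h2 : (b : ℝ) = Real.exp B := by rw [hBdef, Real.exp_log (by linarith)]
      calc (b : ℝ) ^ (2 * L + 1) = Real.exp B ^ (2 * L + 1) := by rw [← h2]
        _ = Real.exp (B * (2 * L + 1)) := by rw [← Real.exp_nat_mul]; push_cast; ring_nf
    rw [h1, ← Real.exp_mul, ← hδB]
    ring_nf
  have h67 : θ ^ k ≤ Real.exp (lam - lam * (ρ * L)) := by
    have h1 : θ = Real.exp (-lam) := by rw [hlam, neg_neg, Real.exp_log hθ0]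
    calc θ ^ k = Real.exp (-lam) ^ k := by rw [← h1]
      _ = Real.exp (k * (-lam)) := by rw [← Real.exp_nat_mul]
      _ ≤ _ := by
        apply Real.exp_le_exp.2
        nlinarith
  have hsqrt : Real.sqrt L ≤ L := by
    rw [Real.sqrt_le_left (by linarith)]
    nlinarith
  calc C ^ 2 * (2 * Q : ℝ) ^ (2 * δ) / Q * (C0 * Q * T * θ ^ k)
      = C0 * C ^ 3 * ((2 * Q : ℝ) ^ (2 * δ) * ((b : ℝ) ^ (2 * L + 1)) ^ δ * θ ^ k) := by
        rw [hT]; field_simp
    _ ≤ C0 * C ^ 3 * (Real.exp (lam * ρ / 6 * (2 + L)) * Real.exp (lam * ρ / 6 * (2 * L + 1))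
          * Real.exp (lam - lam * (ρ * L))) := by
        apply mul_le_mul_of_nonneg_left _ (by positivity)
        exact mul_le_mul (mul_le_mul h2Q hT2.le (by positivity) (Real.exp_pos _).le) h67
          (by positivity) (by positivity)
    _ ≤ C0 * C ^ 3 * (Real.exp (lam + lam * ρ / 2) * Real.exp (-(lam * ρ / 2 * Real.sqrt L))) := by
        apply mul_le_mul_of_nonneg_left _ (by positivity)
        rw [← Real.exp_add, ← Real.exp_add, ← Real.exp_add]
        apply Real.exp_le_exp.2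
        have h1 : lam * ρ / 2 * Real.sqrt L ≤ lam * ρ / 2 * L :=
          mul_le_mul_of_nonneg_left hsqrt (by positivity)
        linarith
    _ = C0 * C ^ 3 * Real.exp (lam + lam * ρ / 2) * Real.exp (-(lam * ρ / 2 * Real.sqrt L)) := by
        ring

/-- **Task T7** -/
theorem taskT7 : TaskT7 := by
  intro b hb point midB bigB ε hε A
  obtain ⟨κ, hκ0, hκ1, hp⟩ := point
  obtain ⟨Cm, θm, N, hCm, hθm0, hθm1, hN, mid⟩ := midB
  obtain ⟨Cb, θb, hCb, hθb0, hθb1, big⟩ := bigB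
  obtain ⟨c1, hc1, hsmall⟩ := small κ hκ0 hκ1 (A + 2)
  have hbR : (2 : ℝ) ≤ b := by exact_mod_cast hb
  have hB : 0 < Real.log b := Real.log_pos (by linarith)
  have hlm : 0 < -Real.log θm := by
    have := Real.log_neg hθm0 hθm1
    linarith
  have hlb : 0 < -Real.log θb := by
    have := Real.log_neg hθb0 hθb1
    linarith
  have hNR : (1 : ℝ) ≤ N := by exact_mod_cast hN
  -- divisor bounds
  obtain ⟨C1, hC1, hτ1⟩ := divisor_bound (-Real.log θm / (2 * Real.log b)) (by positivity)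
  have hτ1' : ∀ n : ℕ, 1 ≤ n → (n.divisors.card : ℝ) ^ 2 ≤
      C1 ^ 2 * (n : ℝ) ^ (-Real.log θm / Real.log b) := by
    intro n hn
    have h1 := hτ1 n hn
    have h2 : ((n : ℝ) ^ (-Real.log θm / (2 * Real.log b))) ^ 2 =
        (n : ℝ) ^ (-Real.log θm / Real.log b) := by
      rw [← Real.rpow_natCast, ← Real.rpow_mul (by positivity)]
      congr 1
      push_cast
      field_simp
    calc (n.divisors.card : ℝ) ^ 2 ≤ (C1 * (n : ℝ) ^ (-Real.log θm / (2 * Real.log b))) ^ 2 :=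
          pow_le_pow_left₀ (by positivity) h1 2
      _ = _ := by rw [mul_pow, h2]
  set c : ℝ := 1 / (4 * (N : ℝ)) with hcdef
  have hc : 0 < c := by positivity
  set ρ : ℝ := min (ε / 4) (c / 4) with hρdef
  have hρ : 0 < ρ := lt_min (by positivity) (by positivity)
  have hρ1 : 4 * ρ ≤ ε := by
    have : ρ ≤ ε / 4 := min_le_left _ _
    linarith
  have hρ2 : 4 * ρ ≤ c := by
    have : ρ ≤ c / 4 := min_le_right _ _
    linarith
  obtain ⟨C2, hC2, hτ2⟩ := divisor_bound (-Real.log θb * ρ / (6 * Real.log b)) (by positivity)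
  have hmid := mid_range b hb c1 (C1 ^ 2) Cm θm N hc1 (by positivity) hCm hθm0 hθm1 hN (A + 2)
    hτ1' mid
  have hlarge := large_range b hb ε ρ c C2 Cb θb hε hρ hρ1 hρ2 hC2 hCb hθb0 hθb1 (A + 2) hτ2 big
  have hLB : ∀ᶠ L : ℕ in atTop, Real.log b ≤ (L : ℝ) :=
    tendsto_natCast_atTop_atTop.eventually_ge_atTop _
  filter_upwards [hsmall, hmid, hlarge, eventually_ge_atTop 2, hLB] with L h1 h2 h3 hL2 hLB'
  set D : ℕ := ⌊(b : ℝ) ^ ((1 / 2 - ε) * L)⌋₊ with hD
  have hLp : (2 : ℝ) ≤ L := by exact_mod_cast hL2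
  have hg : ∀ q : ℕ, 0 ≤ (q.divisors.card : ℝ) ^ 2 * U b L q / q := fun q =>
    div_nonneg (mul_nonneg (by positivity) (U_nonneg b L q)) (Nat.cast_nonneg q)
  refine (cover (2 * b) D _ hg).trans ?_
  have hDr : (D : ℝ) ≤ (b : ℝ) ^ ((1 / 2 - ε) * L) := Nat.floor_le (by positivity)
  have hterm : ∀ j ∈ Icc 1 (Nat.log 2 D),
      ∑ q ∈ (Ico (2 ^ j) (2 * 2 ^ j)).filter (fun q => q.Coprime (2 * b)),
        (q.divisors.card : ℝ) ^ 2 * U b L q / q ≤ 1 / (L : ℝ) ^ (A + 2) := by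
    intro j hj
    rw [mem_Icc] at hj
    have hD0 : D ≠ 0 := by
      intro h0
      rw [h0] at hj
      simp at hj
      omega
    have hjD : (2 : ℝ) ^ j ≤ (b : ℝ) ^ ((1 / 2 - ε) * L) := by
      have e1 : 2 ^ j ≤ D :=
        (Nat.pow_le_pow_right (by norm_num) hj.2).trans (Nat.pow_log_le_self 2 hD0)
      have e2 : (2 : ℝ) ^ j ≤ D := by exact_mod_cast e1
      exact e2.trans hDr
    rcases le_or_gt (j : ℝ) (c1 * Real.sqrt L) with h | h
    · exact (block_small b hb κ hκ1 hp L j hj.1).trans (h1 j h)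
    · rcases le_or_gt ((2 : ℝ) ^ j) ((b : ℝ) ^ ((L : ℝ) * c)) with h' | h'
      · exact h2 j hj.1 h h'
      · exact h3 j hj.1 h' hjD
  refine (sum_le_sum hterm).trans ?_
  rw [sum_const, nsmul_eq_mul, Nat.card_Icc, Nat.add_sub_cancel]
  have hlog : (Nat.log 2 D : ℝ) ≤ L * Real.log b := by
    rcases Nat.eq_zero_or_pos D with h0 | h0
    · rw [h0]; simp; positivity
    have e1 : 2 ^ Nat.log 2 D ≤ D := Nat.pow_log_le_self 2 h0.ne'
    have e2 : (2 : ℝ) ^ Nat.log 2 D ≤ (b : ℝ) ^ ((1 / 2 - ε) * L) := by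
      have : (2 : ℝ) ^ Nat.log 2 D ≤ D := by exact_mod_cast e1
      exact this.trans hDr
    have e3 := Real.log_le_log (by positivity) e2
    rw [Real.log_pow, Real.log_rpow (by linarith)] at e3
    have hl2 : 1 / 2 ≤ Real.log 2 := by
      have := Real.log_two_gt_d9
      linarith
    have e5 : (1 / 2 - ε) * L * Real.log b ≤ (1 / 2 * L) * Real.log b := by
      apply mul_le_mul_of_nonneg_right _ hB.le
      nlinarith
    have e6 : (1 / 2 * (L : ℝ)) * Real.log b ≤ L * Real.log b * Real.log 2 := by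
      have : 0 ≤ (L : ℝ) * Real.log b := by positivity
      nlinarith
    exact le_of_mul_le_mul_right (e3.trans (e5.trans e6)) (by linarith)
  calc (Nat.log 2 D : ℝ) * (1 / (L : ℝ) ^ (A + 2)) ≤ L * Real.log b * (1 / (L : ℝ) ^ (A + 2)) :=
        mul_le_mul_of_nonneg_right hlog (by positivity)
    _ ≤ 1 / (L : ℝ) ^ A := by
        rw [mul_one_div, div_le_div_iff₀ (by positivity) (by positivity), one_mul, pow_add]
        have h0 : 0 < (L : ℝ) ^ A := by positivity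
        have : (L : ℝ) * Real.log b ≤ L ^ 2 := by nlinarith
        nlinarith

end Pool.Agent.H885R3.PBT7
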