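import Pool.Agent.H197R3.SF.Stmts

/-! Task LL of project H197-SF (written by helper885). -/

set_option autoImplicit false

namespace Pool.Agent.H885R3.SFLL

open MeasureTheory Filter Topology Set
open Pool.Agent.H197R3.SF

theorem wt_cont (σ : ℝ) : Continuous (wt σ) := by
  unfold wt
  fun_prop

theorem ch_cont (ω : ℝ) : Continuous (ch ω) := by
  unfold ch
  fun_prop

theorem ch_norm (ω t : ℝ) : ‖ch ω t‖ = 1 := by
  unfold ch
  rw [← neg_mul, ← Complex.ofReal_mul, ← Complex.ofReal_neg, Complex.norm_exp_ofReal_mul_I]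

theorem ch_add (ω s t : ℝ) : ch ω (s + t) = ch ω s * ch ω t := by
  unfold ch
  rw [← Complex.exp_add]
  congr 1
  push_cast
  ring

theorem wt_norm (σ t : ℝ) : ‖wt σ t‖ = Real.exp (σ * |t|) := by
  unfold wt
  rw [Complex.norm_real, Real.norm_of_nonneg (Real.exp_nonneg _)]

theorem one_le_wt {σ : ℝ} (hσ : 0 < σ) (t : ℝ) : 1 ≤ ‖wt σ t‖ := by
  rw [wt_norm, Real.one_le_exp_iff]
  positivity

theorem integrable_of_wt {σ : ℝ} (hσ : 0 < σ) {f : ℝ → ℂ} (hf : Integrable (fun t => f t * wt σ t)) :
    Integrable f := by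
  have hne : ∀ t, wt σ t ≠ 0 := fun t h => by
    have := one_le_wt hσ t
    rw [h, norm_zero] at this
    linarith
  have h1 : f = fun t => (f t * wt σ t) * (wt σ t)⁻¹ := by
    funext t
    rw [mul_assoc, mul_inv_cancel₀ (hne t), mul_one]
  have hm : AEStronglyMeasurable f volume := by
    rw [h1]
    exact hf.aestronglyMeasurable.mul
      ((wt_cont σ).inv₀ hne).aestronglyMeasurable
  refine hf.norm.mono' hm (Eventually.of_forall fun t => ?_)
  rw [norm_mul]
  exact le_mul_of_one_le_right (norm_nonneg _) (one_le_wt hσ t)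

theorem taskLL : TaskLL := by
  intro σ f g hσ hF hG
  have hf := integrable_of_wt hσ hF
  have hg := integrable_of_wt hσ hG
  have hfg : Integrable (fun p : ℝ × ℝ => f p.2 * g (p.1 - p.2)) (volume.prod volume) :=
    hf.convolution_integrand (ContinuousLinearMap.mul ℂ ℂ) hg
  have hFG : Integrable (fun p : ℝ × ℝ => ‖f p.2 * wt σ p.2‖ * ‖g (p.1 - p.2) * wt σ (p.1 - p.2)‖)
      (volume.prod volume) :=
    hF.norm.convolution_integrand (ContinuousLinearMap.mul ℝ ℝ) hG.norm
  refine ⟨?_, ?_⟩
  · have h1 : Integrable (fun p : ℝ × ℝ => f p.2 * g (p.1 - p.2) * wt σ p.1)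
        (volume.prod volume) := by
      refine hFG.mono' (hfg.aestronglyMeasurable.mul
        ((wt_cont σ).comp continuous_fst).aestronglyMeasurable) (Eventually.of_forall fun p => ?_)
      rw [norm_mul, norm_mul, norm_mul, norm_mul, wt_norm, wt_norm, wt_norm]
      have h2 : Real.exp (σ * |p.1|) ≤ Real.exp (σ * |p.2|) * Real.exp (σ * |p.1 - p.2|) := by
        rw [← Real.exp_add, Real.exp_le_exp, ← mul_add]
        apply mul_le_mul_of_nonneg_left _ hσ.le
        have := abs_add_le p.2 (p.1 - p.2)
        rwa [add_sub_cancel] at this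
      calc ‖f p.2‖ * ‖g (p.1 - p.2)‖ * Real.exp (σ * |p.1|)
          ≤ ‖f p.2‖ * ‖g (p.1 - p.2)‖ * (Real.exp (σ * |p.2|) * Real.exp (σ * |p.1 - p.2|)) := by
            gcongr
        _ = ‖f p.2‖ * Real.exp (σ * |p.2|) * (‖g (p.1 - p.2)‖ * Real.exp (σ * |p.1 - p.2|)) := by
            ring
    have h3 := h1.integral_prod_left
    refine h3.congr (Eventually.of_forall fun t => ?_)
    exact integral_mul_const (wt σ t) (fun s => f s * g (t - s))
  · intro ω
    have h1 : Integrable (fun p : ℝ × ℝ => f p.2 * g (p.1 - p.2) * ch ω p.1)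
        (volume.prod volume) := by
      refine hfg.norm.mono' (hfg.aestronglyMeasurable.mul
        ((ch_cont ω).comp continuous_fst).aestronglyMeasurable) (Eventually.of_forall fun p => ?_)
      rw [norm_mul, ch_norm, mul_one]
    calc ∫ t, (∫ s, f s * g (t - s)) * ch ω t
        = ∫ t, ∫ s, f s * g (t - s) * ch ω t := by
          congr 1
          funext t
          exact (integral_mul_const (ch ω t) (fun s => f s * g (t - s))).symm
      _ = ∫ s, ∫ t, f s * g (t - s) * ch ω t := integral_integral_swap h1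
      _ = ∫ s, (f s * ch ω s) * ∫ t, g t * ch ω t := by
          congr 1
          funext s
          rw [← integral_const_mul, ← integral_sub_right_eq_self (fun t => f s * ch ω s *
            (g t * ch ω t)) s]
          congr 1
          funext t
          have h2 : ch ω t = ch ω s * ch ω (t - s) := by
            rw [← ch_add, add_sub_cancel]
          rw [h2]
          ring
      _ = (∫ t, f t * ch ω t) * ∫ t, g t * ch ω t := integral_mul_const _ _

end Pool.Agent.H885R3.SFLL
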